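import Pool.Agent.H91.RF.TargetsF

/-!
# MP_609556_an, full answer: part K (directions, chain theorem, the K-inequality)
-/

open MeasureTheory Set Filter Topology Metric
open Pool.Agent.H29.TF (hk P)
open Pool.Agent.H91.RD

namespace Pool.Agent.H91.RF

/-! ### Geometry at a ratio -/

/-- [GEOB] distance function in boxes -/
def T_GEOB : Prop :=
  ∀ (N : ℕ) (U : Set (E N)) (b B : ℝ), CondC U → U.Nonempty → 0 < b → b < B →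
    ∃ Cg ≥ 1, ∃ ρ0 > 0, ∀ ρ, 0 < ρ → ρ ≤ ρ0 → ∀ ε > 0, ∃ η > 0, ∃ T > 0, ∀ t ≥ T, ∀ x0 e,
      NDir U η x0 e → b * t ≤ infDist x0 U → infDist x0 U ≤ B * t → ∀ y, dist y x0 ≤ ρ * t →
      infDist x0 U + inner ℝ (y - x0) e - ε * t ≤ infDist y U ∧
      infDist y U ≤ infDist x0 U + inner ℝ (y - x0) e + (Cg * ρ ^ 2 + ε) * t

/-- [GEOK] directions in boxes -/
def T_GEOK : Prop :=
  ∀ (N : ℕ) (U : Set (E N)) (b : ℝ), CondC U → U.Nonempty → 0 < b → ∀ κ > 0, ∃ ρ > 0, ∃ T > 0,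
    ∀ t ≥ T, ∀ x0 e, NDir U ρ x0 e → b * t ≤ infDist x0 U →
      ∀ y, dist y x0 ≤ ρ * t → NDir U κ y e

/-- [UPB] from points to boxes -/
def T_UPB : Prop :=
  ∀ (N : ℕ) (U : Set (E N)) (cc : ℝ) (Q : ℝ → ℝ → E N → E N → Prop), CondC U → U.Nonempty →
    0 < cc → AtR U cc Q → ∀ ε > 0, ∃ ρ > 0, ∃ T > 0, ∀ t ≥ T, ∀ x0 e, NDir U ρ x0 e →
      |infDist x0 U - cc * t| ≤ ρ * t → ∀ s ∈ Icc ((1 - ρ) * t) t, ∀ y, dist y x0 ≤ ρ * t →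
      Q ε s y e

/-- [SEQ] sequences: shifts; extraction from the failure of a property -/
def T_SEQ : Prop :=
  ∀ (N : ℕ) (U : Set (E N)) (cc : ℝ), CondC U → U.Nonempty → 0 < cc →
    (∀ (tn : ℕ → ℝ) (xn : ℕ → E N) (e : E N), AtSeq U cc tn xn e → ∀ (sn : ℕ → ℝ) (yn : ℕ → E N)
      (C : ℝ), (∀ n, |sn n| ≤ C ∧ ‖yn n‖ ≤ C) →
      AtSeq U cc (fun n => tn n + sn n) (fun n => xn n + yn n) e) ∧
    (∀ (tn : ℕ → ℝ) (xn en hn : ℕ → E N), Tendsto tn atTop atTop →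
      (∀ n : ℕ, NDir U (1 / ((n : ℝ) + 1)) (xn n) (en n) ∧
        |infDist (xn n) U - cc * tn n| ≤ 1 / ((n : ℝ) + 1) * tn n) →
      (∀ n, ‖hn n‖ ≤ 1) → ∃ (σ : ℕ → ℕ) (e h : E N), StrictMono σ ∧ ‖e‖ = 1 ∧
        Tendsto (en ∘ σ) atTop (𝓝 e) ∧ Tendsto (hn ∘ σ) atTop (𝓝 h) ∧
        AtSeq U cc (tn ∘ σ) (xn ∘ σ) e)

/-- [E1] monotonicity up to `e^{-Mt}` in a small cone of directions -/
def T_E1 : Prop :=
  ∀ (N : ℕ) (f : ℝ → ℝ) (K : ℝ) (U : Set (E N)) (u : ℝ → E N → ℝ), Stg f K U u → ∀ M > 0,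
    ∀ b > 0, ∃ η > 0, ∃ T > 0, ∀ t ≥ T, ∀ x e, NDir U η x e → b * t ≤ infDist x U →
      ∀ s ∈ Icc ((1 - η) * t) t, ∀ y, dist y x ≤ η * t → dx u e s y ≤ Real.exp (-(M * t))

/-- [FRM] positivity and lower bound of `p` at the ratio `cc` -/
def T_FRM : Prop :=
  ∀ (N : ℕ) (f : ℝ → ℝ) (K cc lo hi : ℝ) (U : Set (E N)) (u : ℝ → E N → ℝ), Stg f K U u →
    Mac U u cc lo hi → ∃ C0 C9 η0, Frm U u cc C0 C9 η0

/-- [PAST] at earlier times the derivatives are bounded by `p` -/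
def T_PAST : Prop :=
  ∀ (N : ℕ) (f : ℝ → ℝ) (K cc C0 C9 η0 : ℝ) (U : Set (E N)) (u : ℝ → E N → ℝ), Stg f K U u →
    0 < cc → Frm U u cc C0 C9 η0 → ∀ S > 0, ∀ ρ > 0, ∃ C ≥ 1, ∃ η > 0, ∃ T > 0, ∀ t ≥ T, ∀ x e,
      NDir U η x e → |infDist x U - cc * t| ≤ η * t → ∀ y, dist y x ≤ ρ →
      gr u (t - S) y + ‖fderiv ℝ (fun z => fderiv ℝ (u (t - S)) z) y‖ ≤ C * -dx u e t x ∧
      (∫ z, hk S (x - z) * gr u (t - S) z) ≤ C * -dx u e t x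

/-! ### The chain theorem -/

/-- [CHN] iteration of a local gain inequality along the time interval `[t - n S, t]` -/
def T_CHN : Prop :=
  ∀ (N : ℕ) (K β cc : ℝ), 1 ≤ N → 0 < K → 0 ≤ β → 0 < cc → ∃ L ≥ 1, ∀ δ S g κ Mb Cl : ℝ,
    0 < δ → δ ≤ 1 → 0 < S → 0 < g → 0 ≤ κ → 1 ≤ Mb → 0 < Cl → ∃ T > 0, ∀ t ≥ T,
    ∀ (n : ℕ) (V h D : ℝ → E N → ℝ) (x0 e : E N) (A : Set (E N)) (d0 B1 B2 PA : ℝ),
      1 ≤ n → n * S ≤ δ * t → ‖e‖ = 1 → Pt K V → MeasurableSet A → |d0 - cc * t| ≤ t →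
      0 ≤ B1 → 0 ≤ B2 →
      (∀ s ∈ Icc (t - δ * t) t, Measurable (h s) ∧ Measurable (D s) ∧
        ∀ y, 0 ≤ h s y ∧ h s y ≤ Mb ∧ 0 ≤ D s y ∧ D s y ≤ Mb) →
      (∀ j ≤ n, ∀ x ∈ closedBall x0 (L * δ * t), Real.exp (-(Cl * t)) ≤ h (t - j * S) x) →
      (∀ j < n, ∀ x ∈ closedBall x0 (L * δ * t),
        h (t - j * S) x ≤ ∫ y, gk V (t - j * S) x (t - j * S - S) y * h (t - j * S - S) y) →
      (∀ j < n, ∀ x ∈ closedBall x0 (L * δ * t),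
        ∫ y, gk V (t - j * S) x (t - j * S - S) y * D (t - j * S - S) y ≤
          D (t - j * S) x + Real.exp (-t) * h (t - j * S) x) →
      (∀ j < n, ∀ x ∈ closedBall x0 (L * δ * t),
        Real.log (h (t - j * S) x) + g * S - κ * S * (D (t - j * S) x / h (t - j * S) x) ≤
          Gn V (h (t - j * S - S)) β cc e S (t - j * S) x) →
      Real.exp (-(δ * t)) ≤ h t x0 →
      (∀ y ∈ closedBall x0 (L * δ * t),
        Real.log (h (t - n * S) y) + β * (d0 + inner ℝ (y - x0) e - cc * (t - n * S)) ≤ B1 ∨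
        (y ∈ A ∧ Real.log (h (t - n * S) y) +
          β * (d0 + inner ℝ (y - x0) e - cc * (t - n * S)) ≤ B1 + B2)) →
      ∫ y, gk V t x0 (t - n * S) y * A.indicator (h (t - n * S)) y ≤ PA * h t x0 →
      Real.log (h t x0) + β * (d0 - cc * t) + n * g * S - κ * n * S * (D t x0 / h t x0) ≤
        B1 + B2 * PA + 1

/-- [P0A] the region ahead contributes exponentially little -/
def T_P0A : Prop :=
  ∀ (N : ℕ) (f : ℝ → ℝ) (K cc lo hi C0 C9 η0 : ℝ) (U : Set (E N)) (u : ℝ → E N → ℝ), Stg f K U u →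
    Mac U u cc lo hi → Frm U u cc C0 C9 η0 → 4 * fp f lo ≤ cc ^ 2 → fp f hi ≤ 0 →
    ∃ a0 > 0, ∃ L ≥ 1, ∀ a, 0 < a → a ≤ a0 → ∀ Mb ≥ 1, ∃ η > 0, ∃ ε > 0, ∃ T > 0, ∀ t ≥ T,
      ∀ x0 e, NDir U η x0 e → |infDist x0 U - cc * t| ≤ η * t →
      ∀ s ∈ Icc (a ^ 4 * t / 2) (a ^ 4 * t), ∀ g : E N → ℝ, Measurable g →
      (∀ y, 0 ≤ g y ∧ g y ≤ Mb) →
      (∀ y, dist y x0 ≤ L * a ^ 4 * t → cc * (t - s) ≤ infDist y U →
        g y ≤ Real.exp (-(cc / 2 * (infDist y U - cc * (t - s))) + ε * t)) →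
      ∫ y, gk (pot f u) t x0 (t - s) y *
        {y | cc * (t - s) + a ^ 5 * t ≤ infDist x0 U + inner ℝ (y - x0) e}.indicator g y ≤
        Real.exp (-(a ^ 6 * t / 8))

/-! ### Lower bound of the time derivative -/

/-- [LIA] local gain where `p` is small against `-u_t` -/
def T_LIA : Prop :=
  ∀ (N : ℕ) (f : ℝ → ℝ) (K cc C0 C9 η0 : ℝ) (U : Set (E N)) (u : ℝ → E N → ℝ), Stg f K U u →
    0 < cc → Frm U u cc C0 C9 η0 → ∃ ηa > 0, ∃ η > 0, ∃ T > 0, ∀ t ≥ T, ∀ x e, NDir U η x e →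
      |infDist x U - cc * t| ≤ η * t → ∀ r, 0 < r → r ≤ 1 →
      -dx u e t x ≤ ηa * (-dt u t x - -dx u e t x) →
      Real.log (max (-dt u t x - -dx u e t x) 0 + r * max (-dx u e t x) 0) + 1 ≤
        Gn (pot f u) (fun y => max (-dt u (t - 1) y - -dx u e (t - 1) y) 0 +
          r * max (-dx u e (t - 1) y) 0) ((K + 2) / cc) cc e 1 t x

/-- [ABD] `-u_t ≤ A p` -/
def T_ABD : Prop :=
  ∀ (N : ℕ) (f : ℝ → ℝ) (K cc lo hi C0 C9 η0 : ℝ) (U : Set (E N)) (u : ℝ → E N → ℝ), Stg f K U u →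
    Mac U u cc lo hi → Frm U u cc C0 C9 η0 → 4 * fp f lo ≤ cc ^ 2 → fp f hi ≤ 0 →
    (AheadD U u cc ∨ AheadW U u cc) → ABd U u cc

/-! ### The K-inequality -/

/-- [LIB] local gain where `F_a` is close to its maximal multiple of `p` -/
def T_LIB : Prop :=
  ∀ (N : ℕ) (f : ℝ → ℝ) (K cc C0 C9 η0 : ℝ) (U : Set (E N)) (u : ℝ → E N → ℝ), Stg f K U u →
    0 < cc → Frm U u cc C0 C9 η0 → ABd U u cc → ∀ α ≥ 0, ∀ M > 0,
    AtR U cc (fun ε t x e => ∀ a, ‖a‖ = α → inner ℝ a e = 0 →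
      Fa u cc e a t x ≤ (M + ε) * -dx u e t x) →
    ∀ ε1 > 0, ∃ S > 0, ∃ ηa > 0, ∃ η > 0, ∃ T > 0, ∀ t ≥ T, ∀ x e a, NDir U η x e →
      |infDist x U - cc * t| ≤ η * t → ‖a‖ = α → inner ℝ a e = 0 →
      (M - ηa) * -dx u e t x ≤ Fa u cc e a t x →
      Real.log (-dx u e t x) + (cc * M / 2 - ε1) * S ≤
        Gn (pot f u) (fun y => max (-dx u e (t - S) y) 0) ((cc + cc * α ^ 2 + M) / 2) cc e S t x

/-- [KIN] the K-inequality -/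
def T_KIN : Prop :=
  ∀ (N : ℕ) (f : ℝ → ℝ) (K cc lo hi C0 C9 η0 : ℝ) (U : Set (E N)) (u : ℝ → E N → ℝ), Stg f K U u →
    Mac U u cc lo hi → Frm U u cc C0 C9 η0 → 4 * fp f lo ≤ cc ^ 2 → fp f hi ≤ 0 →
    (AheadD U u cc ∨ AheadW U u cc) → ABd U u cc → KIn U u cc

/-! ### Tilt -/

/-- [LIR] local gain in windows of maximal tilt -/
def T_LIR : Prop :=
  ∀ (N : ℕ) (f : ℝ → ℝ) (K cc C0 C9 η0 : ℝ) (U : Set (E N)) (u : ℝ → E N → ℝ), Stg f K U u →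
    0 < cc → Frm U u cc C0 C9 η0 → SatW f U u cc → ∀ R > 0, TiltB U u cc R →
    ∃ g > 0, ∃ ηa > 0, ∃ η > 0, ∃ T > 0, ∀ t ≥ T, ∀ x e h, NDir U η x e →
      |infDist x U - cc * t| ≤ η * t → ‖h‖ = 1 → inner ℝ h e = 0 →
      (R - ηa) * -dx u e t x ≤ dx u h t x →
      Real.log (-dx u e t x) + g ≤
        Gn (pot f u) (fun y => max (-dx u e (t - 1) y) 0) (cc / 2) cc e 1 t x

/-- [RCR] the tilt vanishes at the ratio `cc` -/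
def T_RCR : Prop :=
  ∀ (N : ℕ) (f : ℝ → ℝ) (K cc lo hi C0 C9 η0 : ℝ) (U : Set (E N)) (u : ℝ → E N → ℝ), Stg f K U u →
    Mac U u cc lo hi → Frm U u cc C0 C9 η0 → (AheadD U u cc ∨ AheadW U u cc) → SatW f U u cc →
    RZero U u cc

end Pool.Agent.H91.RF
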