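import Pool.Agent.H91.RF.TargetsK

/-!
# MP_609556_an, full answer: part R (components which are not pulled, wakes) and part P (pulled
component)
-/

open MeasureTheory Set Filter Topology Metric
open Pool.Agent.H29.TF (hk P)
open Pool.Agent.H91.RD

namespace Pool.Agent.H91.RF

/-! ### R. Components which are not pulled -/

/-- [SUPZ] as `T_SUPT`, with convexity of the tail -/
def T_SUPZ : Prop :=
  ∀ (f : ℝ → ℝ) (K : ℝ) (J : ℕ) (b c : ℕ → ℝ) (y : ℕ → ℝ → ℝ), Reaction f → Lip f K →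
    Ter f J b c y → ∀ j < J, 4 * fp f (b j) < c j ^ 2 → ∀ kk, c j / 2 < kk →
    kk ^ 2 - c j * kk + fp f (b j) < 0 → ∀ ε > 0,
    ∃ (c' κ C Λ Z2 : ℝ) (q : ℝ → ℝ), 0 < c' ∧ c' < c j ∧ 0 < κ ∧ 1 ≤ C ∧ 0 < Λ ∧ 0 ≤ Z2 ∧
      ContDiff ℝ 2 q ∧ b (j + 1) - ε < q 0 ∧ b j < q 0 ∧ q 0 < b (j + 1) ∧ ∀ z ≥ 0, deriv q z < 0 ∧
        κ * |deriv q z| ≤ -(c' * deriv q z) - deriv (deriv q) z - f (q z) ∧
        |deriv (deriv q) z| ≤ C * |deriv q z| ∧ (Z2 ≤ z → 0 ≤ deriv (deriv q) z) ∧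
        C⁻¹ * Real.exp (-(Λ * z)) ≤ q z - b j ∧ q z - b j ≤ C * Real.exp (-(kk * z))

/-- [TWG] exponential decay towards the lower platform away from the ignited set -/
def T_TWG : Prop :=
  ∀ (N : ℕ) (f : ℝ → ℝ) (K : ℝ) (U : Set (E N)) (u : ℝ → E N → ℝ) (J : ℕ) (b c : ℕ → ℝ)
    (y : ℕ → ℝ → ℝ), Stg f K U u → Ter f J b c y → ∀ j < J, 4 * fp f (b j) < c j ^ 2 →
    ∀ kk, c j / 2 < kk → kk ^ 2 - c j * kk + fp f (b j) < 0 → ∀ ε > 0,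
      ∃ ℓ R1 C T : ℝ, b (j + 1) - ε < ℓ ∧ b j < ℓ ∧ ℓ < b (j + 1) ∧ 0 < R1 ∧ 1 ≤ C ∧
        TwP u (b j) kk ℓ R1 C T

/-- the property of `T_TWG` for an entire solution -/
def TwE {N : ℕ} (w : ℝ → E N → ℝ) (a kk ℓ R1 C : ℝ) : Prop :=
  ∀ t, (ig w ℓ R1 t = ∅ → ∀ x, w t x ≤ a) ∧
    ((ig w ℓ R1 t).Nonempty → ∀ x, w t x - a ≤ C * Real.exp (-(kk * infDist x (ig w ℓ R1 t))))

/-- [TWL] passage to the limit -/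
def T_TWL : Prop :=
  ∀ (N : ℕ) (f : ℝ → ℝ) (K : ℝ) (U : Set (E N)) (u : ℝ → E N → ℝ) (a kk ℓ R1 C T : ℝ),
    Stg f K U u → 0 < kk → 0 < R1 → 1 ≤ C → TwP u a kk ℓ R1 C T →
    ∀ (tn : ℕ → ℝ) (xn : ℕ → E N) (w : ℝ → E N → ℝ), Tendsto tn atTop atTop → Ent f w →
      LimAt u tn xn w → TwE w a kk ℓ R1 C

/-- [LIMR] properties of limits at a ratio -/
def T_LIMR : Prop :=
  ∀ (N : ℕ) (f : ℝ → ℝ) (K cc lo hi C0 C9 η0 : ℝ) (U : Set (E N)) (u : ℝ → E N → ℝ), Stg f K U u →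
    Mac U u cc lo hi → Frm U u cc C0 C9 η0 → KIn U u cc →
    ∀ (tn : ℕ → ℝ) (xn : ℕ → E N) (e : E N) (w : ℝ → E N → ℝ), AtSeq U cc tn xn e → Ent f w →
      LimAt u tn xn w →
      (∀ t x, lo ≤ w t x ∧ w t x ≤ hi) ∧ (∀ t x, 0 ≤ -dx w e t x ∧ gr w t x ≤ C0 * -dx w e t x) ∧
      (∀ t x, cc * gr w t x ^ 2 ≤ dt w t x * -dx w e t x) ∧
      (∀ t x, cc * -dx w e t x ≤ dt w t x) ∧
      (∀ t x, dx w e t x = 0 → ∀ s ≤ t, ∀ z, fderiv ℝ (w s) z = 0) ∧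
      (∀ R, TiltB U u cc R → ∀ h, ‖h‖ = 1 → inner ℝ h e = 0 → ∀ t x, dx w h t x ≤ R * -dx w e t x)

/-- [NOTI] no planar entire solution with a steep tail which is faster than `c_j` -/
def T_NOTI : Prop :=
  ∀ (N : ℕ) (f : ℝ → ℝ) (K : ℝ) (J : ℕ) (b c : ℕ → ℝ) (y : ℕ → ℝ → ℝ), 1 ≤ N → Reaction f →
    Lip f K → Ter f J b c y → ∀ j < J, 4 * fp f (b j) < c j ^ 2 → ∀ cn, c j < cn →
    ∃ kk, c j / 2 < kk ∧ kk ^ 2 - c j * kk + fp f (b j) < 0 ∧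
      ∀ (w : ℝ → E N → ℝ) (n : E N) (ℓ R1 C : ℝ), ‖n‖ = 1 → Ent f w → (∀ t, ContDiff ℝ 2 (w t)) →
      (∀ t x, HasDerivAt (fun s => w s x) (Laplacian.laplacian (w t) x + f (w t x)) t) →
      (∀ t ≤ 0, ∀ x, fderiv ℝ (w t) x = -(gr w t x) • (innerSL ℝ n : E N →L[ℝ] ℝ)) →
      (∀ t ≤ 0, ∀ x, cn * gr w t x ≤ dt w t x) → (∀ t ≤ 0, ∀ x, w t x ≤ b (j + 1)) →
      b j < ℓ → ℓ < b (j + 1) → 0 < R1 → 1 ≤ C → TwE w (b j) kk ℓ R1 C → w 0 0 < ℓ → w 0 0 ≤ b j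

/-- [PLAN] a limit of maximal tilt is planar or flat -/
def T_PLAN : Prop :=
  ∀ (N : ℕ) (f : ℝ → ℝ) (K cc lo hi C0 C9 η0 : ℝ) (U : Set (E N)) (u : ℝ → E N → ℝ), Stg f K U u →
    Mac U u cc lo hi → Frm U u cc C0 C9 η0 → KIn U u cc → ∀ R, 0 < R → TiltB U u cc R →
    ∀ (tn : ℕ → ℝ) (xn : ℕ → E N) (e h : E N) (w : ℝ → E N → ℝ),
    AtSeq U cc tn xn e → ‖h‖ = 1 → inner ℝ h e = 0 →
    Tendsto (fun n => dx u h (tn n) (xn n) / -dx u e (tn n) (xn n)) atTop (𝓝 R) →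
    Ent f w → LimAt u tn xn w → (∀ t ≤ 0, ∀ x, fderiv ℝ (w t) x = 0) ∨
      ((∀ t ≤ 0, ∀ x, 0 < -dx w e t x) ∧ ∃ n : E N, ‖n‖ = 1 ∧ ∀ t ≤ 0, ∀ x,
        fderiv ℝ (w t) x = -(gr w t x) • (innerSL ℝ n : E N →L[ℝ] ℝ) ∧
        gr w t x = √(1 + R ^ 2) * -dx w e t x ∧ cc * √(1 + R ^ 2) * gr w t x ≤ dt w t x)

/-- [AVD] planar limits which are too fast avoid the values of a component which is not pulled -/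
def T_AVD : Prop :=
  ∀ (N : ℕ) (f : ℝ → ℝ) (K : ℝ) (U : Set (E N)) (u : ℝ → E N → ℝ) (J : ℕ) (b c : ℕ → ℝ)
    (y : ℕ → ℝ → ℝ), Stg f K U u → Ter f J b c y → ∀ j < J, 4 * fp f (b j) < c j ^ 2 → ∀ R > 0,
    ∀ (tn : ℕ → ℝ) (xn : ℕ → E N) (w : ℝ → E N → ℝ) (n : E N), Tendsto tn atTop atTop → Ent f w →
      LimAt u tn xn w → ‖n‖ = 1 →
      (∀ t ≤ 0, ∀ x, fderiv ℝ (w t) x = -(gr w t x) • (innerSL ℝ n : E N →L[ℝ] ℝ)) →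
      (∀ t ≤ 0, ∀ x, c j * √(1 + R ^ 2) * gr w t x ≤ dt w t x) →
      (∀ t ≤ 0, ∀ x, w t x ≤ b (j + 1)) → ∀ t ≤ 0, ∀ x, w t x ≤ b j ∨ w t x = b (j + 1)

/-- [SWN] maximal tilt windows are flat, all components of the cluster `i, …, k` not pulled except
possibly the first one, for which the conclusion is assumed -/
def T_SWN : Prop :=
  ∀ (N : ℕ) (f : ℝ → ℝ) (K : ℝ) (U : Set (E N)) (u : ℝ → E N → ℝ) (J : ℕ) (b c : ℕ → ℝ)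
    (y : ℕ → ℝ → ℝ) (i k : ℕ) (cc C0 C9 η0 : ℝ), Stg f K U u → Ter f J b c y → i ≤ k → k < J →
    (∀ l, i ≤ l → l ≤ k → c l = cc) → Mac U u cc (b i) (b (k + 1)) → Frm U u cc C0 C9 η0 →
    KIn U u cc → (4 * fp f (b i) < cc ^ 2 ∨
      (4 * fp f (b i) = cc ^ 2 ∧ i = 0 ∧ VacR U u cc ∧ ReachP f U u cc (b 0) (b 1))) →
    SatW f U u cc

/-- [CYL] solutions of the linear equation in a long cylinder, small potential -/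
def T_CYL : Prop :=
  ∀ (N : ℕ) (K C a b R ω k : ℝ) (V z : ℝ → E N → ℝ) (x0 : E N), 1 ≤ N → Pt K V →
    ContinuousOn (fun q : ℝ × E N => V q.1 q.2) (Icc a b ×ˢ univ) → LinD V a b z →
    ContinuousOn (fun q : ℝ × E N => z q.1 q.2) (Icc a b ×ˢ univ) → a < b → 0 < R → 0 < k →
    0 ≤ ω → 0 ≤ C → (∀ t ∈ Icc a b, ∀ x, |z t x| ≤ C) →
    (∀ t ∈ Icc a b, ∀ x ∈ closedBall x0 R, |V t x| ≤ ω ∨ 0 ≤ z t x) →
    (∀ x ∈ closedBall x0 R, 0 ≤ z a x) →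
    -(2 * N * C * Real.exp ((k ^ 2 + ω) * (b - a) - k * R / √N)) ≤ z b x0 ∧
      ∀ κ' m0 : ℝ, 0 < κ' → √N * (Real.pi / (2 * κ')) ≤ R → 0 ≤ m0 →
        (∀ x ∈ closedBall x0 (√N * (Real.pi / (2 * κ'))), m0 ≤ z a x) →
        (∀ t ∈ Icc a b, ∀ x ∈ closedBall x0 (√N * (Real.pi / (2 * κ'))), |V t x| ≤ ω) →
        m0 * Real.exp (-((N * κ' ^ 2 + ω) * (b - a))) -
          2 * N * C * Real.exp ((k ^ 2 + ω) * (b - a) - k * R / √N) ≤ z b x0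

/-- [STP] lower bound of `p` in the wake -/
def T_STP : Prop :=
  ∀ (N : ℕ) (f : ℝ → ℝ) (K ch cc lo b hi C0 C9 η0 : ℝ) (U : Set (E N)) (u : ℝ → E N → ℝ),
    Stg f K U u → cc < ch → f b = 0 → fp f b = 0 → Mac U u ch lo b → Mac U u cc b hi →
    Frm U u ch C0 C9 η0 → ∀ ω > 0, ∀ ω' > 0, ∃ T > 0, ∀ t ≥ T, ∀ x ξ e, Dir U x ξ e →
      (cc + ω) * t ≤ infDist x U → infDist x U ≤ (cc + ch) / 2 * t →
      Real.exp (-(ω' * t)) ≤ -dx u e t x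

/-- [STAT] the wake over a degenerate platform -/
def T_STAT : Prop :=
  ∀ (N : ℕ) (f : ℝ → ℝ) (K ch cc lo b hi C0 C9 η0 : ℝ) (U : Set (E N)) (u : ℝ → E N → ℝ),
    Stg f K U u → cc < ch → f b = 0 → fp f b = 0 → Mac U u ch lo b → Mac U u cc b hi →
    Frm U u ch C0 C9 η0 → KIn U u ch → RZero U u ch → AheadW U u cc

/-! ### P. The pulled component -/

/-- [EXS] existence of mild solutions -/
def T_EXS : Prop :=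
  ∀ (N : ℕ) (f : ℝ → ℝ) (K : ℝ) (g : E N → ℝ), Lip f K → Measurable g →
    (∀ x, 0 ≤ g x ∧ g x ≤ 1) → ∃ w : ℝ → E N → ℝ, Mild f 0 w ∧ Rng 0 w ∧ w 0 = g

/-- [MRG] mild solutions are classical for positive times -/
def T_MRG : Prop :=
  ∀ (N : ℕ) (f : ℝ → ℝ) (K : ℝ) (w : ℝ → E N → ℝ), Reaction f → Lip f K → Mild f 0 w → Rng 0 w →
    (∀ t > 0, ContDiff ℝ 2 (w t)) ∧
    (∀ t > 0, ∀ x, HasDerivAt (fun s => w s x) (Laplacian.laplacian (w t) x + f (w t x)) t) ∧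
    ContinuousOn (fun p : ℝ × E N => fderiv ℝ (w p.1) p.2) (Ioi 0 ×ˢ univ) ∧
    ContinuousOn (fun p : ℝ × E N => iteratedFDeriv ℝ 2 (w p.1) p.2) (Ioi 0 ×ˢ univ) ∧
    ContinuousOn (fun p : ℝ × E N => deriv (fun s => w s p.2) p.1) (Ioi 0 ×ˢ univ) ∧
    (∀ R > 0, Tendsto (fun t => ∫ x in ball (0 : E N) R, |w t x - w 0 x|) (𝓝[>] 0) (𝓝 0)) ∧
    (UniformContinuous (w 0) → ContinuousOn (fun p : ℝ × E N => w p.1 p.2) (Ici 0 ×ˢ univ))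

/-- one-dimensional decreasing solution with datum `g` -/
structure Sol1 (f g : ℝ → ℝ) (Q : ℝ → ℝ → ℝ) : Prop where
  c2 : ∀ t > 0, ContDiff ℝ 2 (Q t)
  eqn : ∀ t > 0, ∀ z, HasDerivAt (fun s => Q s z) (deriv (deriv (Q t)) z + f (Q t z)) t
  cont : ContinuousOn (fun p : ℝ × ℝ => Q p.1 p.2) (Ioi 0 ×ˢ univ)
  contz : ContinuousOn (fun p : ℝ × ℝ => deriv (Q p.1) p.2) (Ioi 0 ×ˢ univ)
  contzz : ContinuousOn (fun p : ℝ × ℝ => deriv (deriv (Q p.1)) p.2) (Ioi 0 ×ˢ univ)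
  neg : ∀ t > 0, ∀ z, deriv (Q t) z < 0
  bot : ∀ t > 0, Tendsto (Q t) atBot (𝓝 1)
  top : ∀ t > 0, Tendsto (Q t) atTop (𝓝 0)
  mild : Mild f 0 (fun t (x : E 1) => if t ≤ 0 then g (x 0) else Q t (x 0))

/-- [SOL1] existence of one-dimensional decreasing solutions -/
def T_SOL1 : Prop :=
  ∀ (f g : ℝ → ℝ) (K : ℝ), Reaction f → Lip f K → Antitone g → (∀ z, 0 ≤ g z ∧ g z ≤ 1) →
    Tendsto g atBot (𝓝 1) → Tendsto g atTop (𝓝 0) → ∃ Q, Sol1 f g Q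

/-- [HV] existence of the one-dimensional solution with step datum -/
def T_HV : Prop := ∀ (f : ℝ → ℝ) (K : ℝ), Reaction f → Lip f K → ∃ Pv, Stp f Pv

/-- logistic datum -/
noncomputable def lgs (k z : ℝ) : ℝ := (1 + Real.exp (k * z))⁻¹

/-- one-dimensional solution with logistic datum -/
structure Lgs (f : ℝ → ℝ) (k : ℝ) (Q : ℝ → ℝ → ℝ) : Prop where
  k0 : 0 < k
  sol : Sol1 f (lgs k) Q
  zero : ∀ z, Q 0 z = lgs k z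
  cont0 : ContinuousOn (fun p : ℝ × ℝ => Q p.1 p.2) (Ici 0 ×ˢ univ)
  bnd : ∀ T > 0, ∀ Zm > 0, ∃ A, ∀ t ∈ Ioc 0 T, ∀ z, |z| ≤ Zm →
    |deriv (deriv (Q t)) z| ≤ A * -deriv (Q t) z

/-- [LGS] existence of the one-dimensional solution with logistic datum -/
def T_LGS : Prop := ∀ (f : ℝ → ℝ) (K k : ℝ), Reaction f → Lip f K → 0 < k → ∃ Q, Lgs f k Q

/-- [DBL] doubling of variables: propagation of a Lipschitz bound -/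
def T_DBL : Prop :=
  ∀ (N : ℕ) (T Zm A : ℝ) (Z : ℝ → E N → ℝ) (a : ℝ → ℝ → ℝ), 0 < T →
    ContinuousOn (fun p : ℝ × E N => Z p.1 p.2) (Icc 0 T ×ˢ univ) →
    (∀ t ∈ Icc 0 T, ∀ x, |Z t x| ≤ Zm) → (∀ x y, |Z 0 x - Z 0 y| ≤ ‖x - y‖) →
    (∀ t ∈ Ioc 0 T, ContDiff ℝ 2 (Z t)) → (∀ t s, |a t s| ≤ A) →
    (∀ t ∈ Ioc 0 T, ∀ x, HasDerivAt (fun s => Z s x)
      (Laplacian.laplacian (Z t) x + a t (Z t x) * (‖fderiv ℝ (Z t) x‖ ^ 2 - 1)) t) →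
    ∀ t ∈ Icc 0 T, ∀ x y, |Z t x - Z t y| ≤ ‖x - y‖

/-- [STL] comparison of slopes with the solution with logistic datum -/
def T_STL : Prop :=
  ∀ (N : ℕ) (f : ℝ → ℝ) (K k δ : ℝ) (Q : ℝ → ℝ → ℝ) (v : ℝ → E N → ℝ), 1 ≤ N → Reaction f →
    Lip f K → Lgs f k Q → 0 < δ → δ < 1 / 2 → Mild f 0 v → Rng 0 v →
    (∀ x, δ ≤ v 0 x ∧ v 0 x ≤ 1 - δ) →
    (∀ x y, |Real.log (v 0 x / (1 - v 0 x)) - Real.log (v 0 y / (1 - v 0 y))| ≤ k * ‖x - y‖) →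
    ∀ t > 0, ∀ x y z, v t x = Q t z → Q t (z + dist x y) ≤ v t y

/-- [DEP] continuous dependence on the datum -/
def T_DEP : Prop :=
  ∀ (N : ℕ) (f : ℝ → ℝ) (K : ℝ) (w : ℕ → ℝ → E N → ℝ) (v : ℝ → E N → ℝ), Lip f K →
    (∀ n, Mild f 0 (w n) ∧ Rng 0 (w n)) → Mild f 0 v → Rng 0 v →
    (∀ t > 0, ∀ x, Tendsto (fun n => P t (w n 0) x) atTop (𝓝 (P t (v 0) x))) →
    ∀ t > 0, ∀ x, Tendsto (fun n => w n t x) atTop (𝓝 (v t x))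

/-- [STEEP] the solution with step datum is the steepest one -/
def T_STEEP : Prop :=
  ∀ (N : ℕ) (f : ℝ → ℝ) (K : ℝ) (Pv : ℝ → ℝ → ℝ) (v : ℝ → E N → ℝ), 1 ≤ N → Reaction f → Lip f K →
    Stp f Pv → Mild f 0 v → Rng 0 v →
    ∀ t > 0, ∀ x y z, v t x = Pv t z → Pv t (z + dist x y) ≤ v t y

/-- [PSTG] the one-dimensional solution satisfies the standing hypotheses -/
def T_PSTG : Prop :=
  ∀ (f : ℝ → ℝ) (K : ℝ) (J : ℕ) (b c : ℕ → ℝ) (y : ℕ → ℝ → ℝ) (Pv : ℝ → ℝ → ℝ), Reaction f →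
    Lip f K → Ter f J b c y → Stp f Pv →
    Stg f K {x : E 1 | x 0 < 0} (fun t x => Pv t (x 0)) ∧
      ∀ x : E 1, infDist x {x : E 1 | x 0 < 0} = max (x 0) 0

/-- [LBX] lower bound by moving boxes, pulled case -/
def T_LBX : Prop :=
  ∀ (f : ℝ → ℝ) (K : ℝ) (J : ℕ) (b c : ℕ → ℝ) (y : ℕ → ℝ → ℝ) (Pv : ℝ → ℝ → ℝ), Reaction f →
    Lip f K → Ter f J b c y → Stp f Pv → 4 * fp f 0 = c 0 ^ 2 → ∀ ε > 0, ∃ T > 0, ∀ t ≥ T,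
    ∀ η ∈ Icc (0 : ℝ) 1, Real.exp (-((c 0 * η / 2 + η ^ 2 / 2 + ε) * t)) ≤ Pv t ((c 0 + η) * t)

/-- [LVL] level set description of the one-dimensional solution -/
def T_LVL : Prop :=
  ∀ (f : ℝ → ℝ) (K : ℝ) (Pv : ℝ → ℝ → ℝ), Reaction f → Lip f K → Stp f Pv →
    ∃ ζ p v : ℝ → ℝ → ℝ,
      (∀ t > 0, ∀ s ∈ Ioo (0 : ℝ) 1, Pv t (ζ t s) = s ∧ p t s = -deriv (Pv t) (ζ t s) ∧
        0 < p t s ∧ HasDerivAt (fun r => ζ r s) (v t s) t ∧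
        HasDerivAt (p t) (v t s - f s / p t s) s) ∧
      ContinuousOn (fun q : ℝ × ℝ => p q.1 q.2) (Ioi 0 ×ˢ Ioo 0 1) ∧
      ContinuousOn (fun q : ℝ × ℝ => v q.1 q.2) (Ioi 0 ×ˢ Ioo 0 1) ∧
      ∀ s ∈ Ioo (0 : ℝ) 1, ∀ r t, 0 < r → r ≤ t → p t s ≤ p r s

/-- [PT] slopes of the one-dimensional solution in its tail, pulled case -/
def T_PT : Prop :=
  ∀ (f : ℝ → ℝ) (K : ℝ) (J : ℕ) (b c : ℕ → ℝ) (y : ℕ → ℝ → ℝ) (Pv : ℝ → ℝ → ℝ), Reaction f →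
    Lip f K → Ter f J b c y → Stp f Pv → 4 * fp f 0 = c 0 ^ 2 → ∀ ε > 0,
    ∃ lam > 0, ∃ ω > 0, ∃ T > 0, ∀ t ≥ T, ∀ z, Real.exp (-(ω * t)) ≤ Pv t z → Pv t z ≤ lam →
      -deriv (Pv t) z ≤ (c 0 / 2 + ε) * Pv t z

/-- [VSL] slopes of `u` for small values of `u` -/
def T_VSL : Prop :=
  ∀ (N : ℕ) (f : ℝ → ℝ) (K : ℝ) (U : Set (E N)) (u : ℝ → E N → ℝ) (J : ℕ) (b c : ℕ → ℝ)
    (y : ℕ → ℝ → ℝ) (C0 C9 η0 : ℝ), Stg f K U u → Ter f J b c y → 4 * fp f 0 = c 0 ^ 2 →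
    Frm U u (c 0) C0 C9 η0 → VSl U u (c 0)

/-- an ancient solution of `v_t = Δ v + κ v` -/
structure Anc {N : ℕ} (κ : ℝ) (v : ℝ → E N → ℝ) : Prop where
  pos : ∀ t ≤ 0, ∀ x, 0 < v t x
  rep : ∀ s t, s < t → t ≤ 0 → ∀ x, Integrable (fun y => hk (t - s) (x - y) * v s y) ∧
    v t x = Real.exp (κ * (t - s)) * ∫ y, hk (t - s) (x - y) * v s y

/-- [VLOW] ancient solutions of speed larger than `c` have slopes smaller than `c/2` -/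
def T_VLOW : Prop :=
  ∀ (N : ℕ) (cc cg : ℝ) (v vt : ℝ → E N → ℝ), 0 < cc → cc < cg → Anc (cc ^ 2 / 4) v →
    Anc (cc ^ 2 / 4) vt → (∀ t ≤ 0, ContDiff ℝ 1 (v t)) → (∀ t ≤ 0, ContDiff ℝ 1 (vt t)) →
    (∀ s t, s ≤ t → t ≤ 0 → ∀ x, v t x = v s x + ∫ r in s..t, vt r x) →
    (∀ t ≤ 0, ∀ x, cc ^ 2 / 4 * v t x ≤ vt t x ∧ gr v t x ≤ cc / 2 * v t x ∧
      cg * gr v t x ≤ vt t x) → (∃ C, ∀ t ≤ 0, ∀ x, vt t x ≤ C * v t x) →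
    gr v 0 0 ≤ cc ^ 2 / (2 * cg) * v 0 0 ∧ gr vt 0 0 ≤ cc ^ 2 / (2 * cg) * vt 0 0

/-- ancient solutions `v`, `vt = v_t` in the vacuum -/
structure Vc0 {N : ℕ} (cc C : ℝ) (v vt : ℝ → E N → ℝ) : Prop where
  anc : Anc (cc ^ 2 / 4) v
  anct : Anc (cc ^ 2 / 4) vt
  c1 : ∀ t ≤ 0, ContDiff ℝ 1 (v t)
  ct : ContinuousOn (fun p : ℝ × E N => vt p.1 p.2) (Iic 0 ×ˢ univ)
  int : ∀ s t, s ≤ t → t ≤ 0 → ∀ x, v t x = v s x + ∫ r in s..t, vt r x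
  low : ∀ t ≤ 0, ∀ x, cc ^ 2 / 4 * v t x ≤ vt t x
  up : ∀ t ≤ 0, ∀ x, vt t x ≤ C * v t x
  slp : ∀ t ≤ 0, ∀ x, gr v t x ≤ cc / 2 * v t x

/-- [VAC] limits normalised by `u`, for small values of `u` -/
def T_VAC : Prop :=
  ∀ (N : ℕ) (f : ℝ → ℝ) (K C0 C9 η0 cc hi : ℝ) (U : Set (E N)) (u : ℝ → E N → ℝ), Stg f K U u →
    Mac U u cc 0 hi → 4 * fp f 0 = cc ^ 2 → Frm U u cc C0 C9 η0 → KIn U u cc → VSl U u cc →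
    ∃ C ≥ 1, ∀ (tn : ℕ → ℝ) (xn : ℕ → E N) (e : E N), AtSeq U cc tn xn e →
      Tendsto (fun n => u (tn n) (xn n)) atTop (𝓝 0) →
      ∃ (σ : ℕ → ℕ) (v vt : ℝ → E N → ℝ), StrictMono σ ∧ Vc0 cc C v vt ∧ v 0 0 = 1 ∧
        (∀ R > 0, TendstoUniformlyOn (fun n (p : ℝ × E N) =>
          u (tn (σ n) + p.1) (xn (σ n) + p.2) / u (tn (σ n)) (xn (σ n)))
          (fun p => v p.1 p.2) atTop (Icc (-R) 0 ×ˢ closedBall 0 R)) ∧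
        (∀ h, ∀ R > 0, TendstoUniformlyOn (fun n (p : ℝ × E N) =>
          dx u h (tn (σ n) + p.1) (xn (σ n) + p.2) / u (tn (σ n)) (xn (σ n)))
          (fun p => dx v h p.1 p.2) atTop (Icc (-R) 0 ×ˢ closedBall 0 R)) ∧
        (∀ R > 0, TendstoUniformlyOn (fun n (p : ℝ × E N) =>
          dt u (tn (σ n) + p.1) (xn (σ n) + p.2) / u (tn (σ n)) (xn (σ n)))
          (fun p => vt p.1 p.2) atTop (Icc (-R) 0 ×ˢ closedBall 0 R)) ∧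
        (∀ t ≤ 0, ∀ x, 0 ≤ -dx v e t x ∧ cc * gr v t x ^ 2 ≤ vt t x * -dx v e t x ∧
          cc * -dx v e t x ≤ vt t x) ∧
        ∀ s t, s < t → t ≤ 0 → ∀ x, Integrable (fun y => hk (t - s) (x - y) * -dx v e s y) ∧
          -dx v e t x = Real.exp (cc ^ 2 / 4 * (t - s)) * ∫ y, hk (t - s) (x - y) * -dx v e s y

/-- [VLA] ancient solutions with level speed at least `cg`: pointwise bounds in the past -/
def T_VLA : Prop :=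
  ∀ (N : ℕ) (cc cg C : ℝ) (v vt : ℝ → E N → ℝ), 0 < cc → cc < cg → Vc0 cc C v vt →
    (∀ t ≤ 0, ∀ x, cg * gr v t x ≤ vt t x) → ∀ s ≥ 0, ∀ y,
      (‖y‖ ≤ cg * s → v (-s) y ≤ v 0 0 * Real.exp (-(cc ^ 2 / 4 * (s - ‖y‖ / cg)))) ∧
      (cg * s ≤ ‖y‖ → v (-s) y ≤ v 0 0 * Real.exp (cc / 2 * (‖y‖ - cg * s)))

/-- [VLC] ancient solutions with level speed at least `cg > cc`: gain, and decay of a power -/
def T_VLC : Prop :=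
  ∀ (N : ℕ) (cc cg C : ℝ), 0 < cc → cc < cg → 1 ≤ C → ∃ S θ γ g : ℝ, 0 < S ∧ 0 < θ ∧ θ < 1 ∧
    0 < γ ∧ γ < 1 ∧ 0 < g ∧ ∀ v vt : ℝ → E N → ℝ, Vc0 cc C v vt →
      (∀ t ≤ 0, ∀ x, cg * gr v t x ≤ vt t x) →
      Integrable (fun y => hk S y * vt (-S) y * v (-S) y ^ θ) ∧
      Real.exp (cc ^ 2 / 4 * S) * (∫ y, hk S y * vt (-S) y * v (-S) y ^ θ) ≤
        (1 - γ) * (vt 0 0 * v 0 0 ^ θ) ∧
      Integrable (fun y => hk S y * vt (-S) y * ‖y‖ ^ 2) ∧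
      ∀ m e : E N, ‖e‖ = 1 →
        m = (∫ y, (Real.exp (cc ^ 2 / 4 * S) * (hk S y * vt (-S) y) / vt 0 0) • y) →
        g * S ≤ -(cc ^ 2 / 4 * S) + ‖m‖ ^ 2 / (4 * S) + cc / 2 * (inner ℝ m e + cc * S)

/-- for small values of `u`, `p ≥ (τ - o(1)) u_t` -/
def Qv {N : ℕ} (U : Set (E N)) (u : ℝ → E N → ℝ) (cc τ : ℝ) : Prop :=
  ∀ ε > 0, ∃ lam > 0, ∃ η > 0, ∃ T > 0, ∀ t ≥ T, ∀ x e, NDir U η x e →
    |infDist x U - cc * t| ≤ η * t → u t x ≤ lam → (τ - ε) * dt u t x ≤ -dx u e t x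

/-- [FTL] local gain in the vacuum where the level speed is larger than `cc` -/
def T_FTL : Prop :=
  ∀ (N : ℕ) (f : ℝ → ℝ) (K C0 C9 η0 cc hi : ℝ) (U : Set (E N)) (u : ℝ → E N → ℝ), Stg f K U u →
    Mac U u cc 0 hi → 4 * fp f 0 = cc ^ 2 → Frm U u cc C0 C9 η0 → KIn U u cc → VSl U u cc →
    ∀ τ, 0 ≤ τ → τ * cc < 1 → Qv U u cc τ → ∃ S θ g δ1 lam1 η T : ℝ, 0 < S ∧ 0 < θ ∧ 0 < g ∧
      0 < δ1 ∧ 0 < lam1 ∧ 0 < η ∧ 0 < T ∧ ∀ t ≥ T, ∀ x e, NDir U η x e →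
        |infDist x U - cc * t| ≤ η * t → u t x ≤ lam1 → -dx u e t x ≤ (τ + δ1) * dt u t x →
        Real.log (dt u t x + -dx u e t x) + g * S ≤
          Gn (pot f u) (fun y => max (dt u (t - S) y + -dx u e (t - S) y) 0) (cc / 2) cc e S t x ∧
        ∫ y, gk (pot f u) t x (t - S) y *
          (u (t - S) y ^ θ * max (dt u (t - S) y + -dx u e (t - S) y) 0) ≤
          u t x ^ θ * (dt u t x + -dx u e t x)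

/-- [FT] in the tail of the pulled component the speed tends to `c` and the tilt to `0` -/
def T_FT : Prop :=
  ∀ (N : ℕ) (f : ℝ → ℝ) (K C0 C9 η0 cc hi : ℝ) (U : Set (E N)) (u : ℝ → E N → ℝ), Stg f K U u →
    Mac U u cc 0 hi → 4 * fp f 0 = cc ^ 2 → Frm U u cc C0 C9 η0 → AheadD U u cc → KIn U u cc →
    VSl U u cc → VacR U u cc

/-- monotonicity in a backward cone at the ratio `cc` -/
def CnM {N : ℕ} (U : Set (E N)) (u : ℝ → E N → ℝ) (cc ka : ℝ) : Prop :=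
  0 < ka ∧ ka < 1 ∧ ∃ η > 0, ∃ T > 0, ∀ t ≥ T, ∀ x e, NDir U η x e →
    |infDist x U - cc * t| ≤ η * t → ∀ y, dist y x ≤ η * t →
      ka * ‖x - y‖ ≤ inner ℝ (x - y) e → u t x ≤ u t y

/-- [CNM] cone monotonicity -/
def T_CNM : Prop :=
  ∀ (N : ℕ) (f : ℝ → ℝ) (K cc C0 C9 η0 : ℝ) (U : Set (E N)) (u : ℝ → E N → ℝ), Stg f K U u →
    0 < cc → Frm U u cc C0 C9 η0 → ∃ ka, CnM U u cc ka

/-- [WBK] small levels move at most with the speed `cc + ε` -/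
def T_WBK : Prop :=
  ∀ (N : ℕ) (f : ℝ → ℝ) (K cc C0 C9 η0 : ℝ) (U : Set (E N)) (u : ℝ → E N → ℝ), Stg f K U u →
    0 < cc → Frm U u cc C0 C9 η0 → VacR U u cc → ∀ ε > 0, ∃ lam > 0, ∃ ρ > 0, ∃ T > 0, ∀ t ≥ T,
      ∀ x e, NDir U ρ x e → |infDist x U - cc * t| ≤ ρ * t → ∀ θ0, 0 < θ0 → θ0 ≤ lam →
      θ0 ≤ u t x → ∀ s ∈ Icc 0 (ρ * t), θ0 ≤ u (t - s) (x - ((cc + ε) * s) • e)

/-- [WLB] deep in the backward cone of a point with `u ≥ θ0` we have `u ≥ m` -/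
def T_WLB : Prop :=
  ∀ (N : ℕ) (f : ℝ → ℝ) (K cc C0 C9 η0 ka m : ℝ) (U : Set (E N)) (u : ℝ → E N → ℝ),
    Stg f K U u → 0 < cc → Frm U u cc C0 C9 η0 → CnM U u cc ka → VacR U u cc → 0 < m →
    2 * m ≤ 1 → (∀ s ∈ Ioo 0 (2 * m), 0 < f s) → ∀ θ0 > 0, ∃ L2 > 0, ∃ η > 0, ∃ T > 0, ∀ t ≥ T,
      ∀ x e, NDir U η x e → |infDist x U - cc * t| ≤ η * t → θ0 ≤ u t x →
      ∀ y, dist y x ≤ η * t → (∀ z ∈ closedBall y L2, ka * ‖x - z‖ ≤ inner ℝ (x - z) e) →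
      m ≤ u t y

/-- [EXC] over a positive base level the first component expands faster than `c 0` -/
def T_EXC : Prop :=
  ∀ (N : ℕ) (f : ℝ → ℝ) (K : ℝ) (J : ℕ) (b c : ℕ → ℝ) (y : ℕ → ℝ → ℝ), 1 ≤ N → Reaction f →
    Lip f K → Ter f J b c y → ∀ m, 0 < m → m < b 1 → ∃ δ > 0, ∀ ε > 0, ∃ ℓ L R0 : ℝ,
      b 1 - ε < ℓ ∧ ℓ < b 1 ∧ m < ℓ ∧ 0 < L ∧ 0 < R0 ∧
      ∀ v : ℝ → E N → ℝ, Cls f v → (∀ t > 0, ∀ x, 0 ≤ v t x ∧ v t x ≤ 1) → ∀ t0 > 0, ∀ x0,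
        ∀ R ≥ R0, ∀ s ≥ 0, (∀ y ∈ closedBall x0 R, ℓ ≤ v t0 y) →
        (∀ τ ∈ Icc 0 s, ∀ y, dist y x0 ≤ R + (c 0 + δ) * τ → m ≤ v (t0 + τ) y) →
        ∀ y, dist y x0 ≤ R - L + (c 0 + δ) * s → ℓ ≤ v (t0 + s) y

/-- [WID] the width of the pulled component is bounded -/
def T_WID : Prop :=
  ∀ (N : ℕ) (f : ℝ → ℝ) (K : ℝ) (U : Set (E N)) (u : ℝ → E N → ℝ) (J : ℕ) (b c : ℕ → ℝ)
    (y : ℕ → ℝ → ℝ) (hi C0 C9 η0 : ℝ), Stg f K U u → Ter f J b c y → 4 * fp f 0 = c 0 ^ 2 →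
    Mac U u (c 0) 0 hi → b 1 ≤ hi → Frm U u (c 0) C0 C9 η0 → VacR U u (c 0) →
    ReachP f U u (c 0) (b 0) (b 1)

/-! ### Final assembly -/

/-- [ALLC] conclusion at every speed -/
def T_ALLC : Prop :=
  ∀ (N : ℕ) (f : ℝ → ℝ) (K : ℝ) (U : Set (E N)) (u : ℝ → E N → ℝ) (J : ℕ) (b c : ℕ → ℝ)
    (y : ℕ → ℝ → ℝ), Stg f K U u → Ter f J b c y → ∀ j < J, RZero U u (c j)

/-- [LIMF] limits are monotone -/
def T_LIMF : Prop :=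
  ∀ (N : ℕ) (f : ℝ → ℝ) (K : ℝ) (U : Set (E N)) (u : ℝ → E N → ℝ) (J : ℕ) (b c : ℕ → ℝ)
    (y : ℕ → ℝ → ℝ), Stg f K U u → Ter f J b c y → (∀ j < J, RZero U u (c j)) → LimC f u

/-- the full answer -/
def T_FULL : Prop := ∀ (N : ℕ) (f : ℝ → ℝ), 1 ≤ N → Reaction f → Conclusion N f

end Pool.Agent.H91.RF
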