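import Pool.Agent.H91.RF.TargetsK

/-!
# MP_609556_an, full answer: part K, auxiliary targets
-/

open MeasureTheory Set Filter Topology Metric
open Pool.Agent.H29.TF (hk P)
open Pool.Agent.H91.RD

namespace Pool.Agent.H91.RF

/-- [NSUP] Gaussian tail of the kernel -/
def T_NSUP : Prop :=
  ∀ (N : ℕ) (K M ρ δ L : ℝ), 0 < K → 0 < M → 0 < ρ → 0 < δ → 0 < L →
    16 * δ * (K * δ + L + 1) ≤ ρ ^ 2 → ∃ T > 0, ∀ t ≥ T, ∀ (V : ℝ → E N → ℝ) (g : E N → ℝ)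
      (τ s : ℝ) (x : E N), Pt K V → Measurable g → (∀ y, |g y| ≤ M) → 0 < s → s ≤ δ * t →
      (∀ y, dist y x ≤ ρ * t → g y = 0) → |∫ y, gk V τ x (τ - s) y * g y| ≤ Real.exp (-(L * t))

/-- [KRFL] reflection -/
def T_KRFL : Prop :=
  ∀ (N : ℕ) (V : ℝ → E N → ℝ) (s t : ℝ), s < t → (∀ r ∈ Ioo s t, ∀ x, V r (-x) = V r x) →
    ∀ x y, gk V t (-x) s (-y) = gk V t x s y

/-- [KLX] the kernel is Lipschitz in `x` -/
def T_KLX : Prop :=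
  ∀ (N : ℕ) (K : ℝ), 0 < K → ∃ C ≥ 1, ∀ V : ℝ → E N → ℝ, Pt K V → ∀ s t, s < t → t ≤ s + 1 →
    ∀ x x' y, ‖x - x'‖ ≤ √(t - s) →
      |gk V t x s y - gk V t x' s y| ≤ C * (‖x - x'‖ / √(t - s)) * hk (4 * (t - s)) (x - y)

/-- [ENTG] entropy inequalities, general form -/
def T_ENTG : Prop :=
  ∀ (N : ℕ) (κ S : ℝ) (G h : E N → ℝ) (x : E N), 0 < S → Measurable G → Measurable h →
    (∀ y, 0 ≤ G y ∧ G y ≤ Real.exp (κ * S) * hk S (x - y)) → (∀ y, 0 ≤ h y) →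
    Integrable (fun y => G y * h y) → 0 < ∫ y, G y * h y →
    Integrable (fun y => G y * (h y * Real.log (h y))) →
    Integrable (fun y => G y * h y * ‖y - x‖ ^ 2) →
    (∀ e : E N, ‖e‖ = 1 → Real.log (∫ y, G y * h y) - κ * S +
      ((∫ y, G y * h y * inner ℝ (y - x) e) / ∫ y, G y * h y) ^ 2 / (4 * S) ≤
      (∫ y, G y * (h y * Real.log (h y))) / ∫ y, G y * h y) ∧
    Real.log (∫ y, G y * h y) - κ * S - N / 2 * Real.log 2 +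
      ((∫ y, G y * h y * ‖y - x‖ ^ 2) / ∫ y, G y * h y) / (8 * S) ≤
      (∫ y, G y * (h y * Real.log (h y))) / ∫ y, G y * h y

/-- [GTR] translation of the gain functional -/
def T_GTR : Prop :=
  ∀ (N : ℕ) (V : ℝ → E N → ℝ) (h : E N → ℝ) (β c S t : ℝ) (e x : E N), 0 < S →
    Gn V h β c e S t x =
      Gn (fun τ y => V (t + τ) (x + y)) (fun y => h (x + y)) β c e S 0 0 ∧
    ∫ y, gk V t x (t - S) y * h y =
      ∫ y, gk (fun τ y => V (t + τ) (x + y)) 0 0 (0 - S) y * h (x + y)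

/-- [GSC] scaling of the gain functional -/
def T_GSC : Prop :=
  ∀ (N : ℕ) (K : ℝ) (V : ℝ → E N → ℝ) (h : E N → ℝ) (β c S t lam : ℝ) (e x : E N), Pt K V →
    0 < S → 0 < lam → Measurable h → (∀ y, 0 ≤ h y) → (∃ M, ∀ y, h y ≤ M) →
    0 < ∫ y, gk V t x (t - S) y * h y →
    Gn V (fun y => lam * h y) β c e S t x = Gn V h β c e S t x + Real.log lam

/-- [GLIM] passage to the limit in the gain functional -/
def T_GLIM : Prop :=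
  ∀ (N : ℕ) (K S β c C' : ℝ) (V : ℕ → ℝ → E N → ℝ) (W : ℝ → E N → ℝ) (h : ℕ → E N → ℝ)
    (hl : E N → ℝ) (e : ℕ → E N) (el : E N), (∀ n, Pt K (V n)) → Pt K W → 0 < S →
    (∀ t ∈ Ioo (-S) 0, ∀ x, Tendsto (fun n => V n t x) atTop (𝓝 (W t x))) →
    (∀ n, Measurable (h n) ∧ (∀ y, 0 ≤ h n y) ∧ ∃ M, ∀ y, h n y ≤ M) →
    (∀ y, Tendsto (fun n => h n y) atTop (𝓝 (hl y))) →
    (∀ R > 0, ∃ B, ∀ᶠ n in atTop, ∀ y ∈ closedBall 0 R, h n y ≤ B) →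
    (∀ n, ‖e n‖ = 1) → Tendsto e atTop (𝓝 el) →
    Tendsto (fun n => ∫ y, gk (V n) 0 0 (0 - S) y * h n y) atTop (𝓝 1) →
    (∀ n, Gn (V n) (h n) β c (e n) S 0 0 ≤ C') →
    Integrable (fun y => gk W 0 0 (0 - S) y * hl y) ∧ (∫ y, gk W 0 0 (0 - S) y * hl y) = 1 ∧
      Integrable (fun y => gk W 0 0 (0 - S) y * hl y * ‖y‖ ^ 2) ∧
      Integrable (fun y => gk W 0 0 (0 - S) y * (hl y * Real.log (hl y))) ∧
      ∀ ε > 0, ∀ᶠ n in atTop, Gn W hl β c el S 0 0 - ε ≤ Gn (V n) (h n) β c (e n) S 0 0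

/-- [STH] Harnack's inequality for positive steady states -/
def T_STH : Prop :=
  ∀ (N : ℕ) (K Kw : ℝ), 0 < K → 0 < Kw → ∃ C1 ≥ 1, ∀ (V : ℝ → E N → ℝ) (w : E N) (p : E N → ℝ),
    Pt K V → ‖w‖ ≤ Kw → (∀ t ≤ 0, ∀ x, V t x = V 0 (x - t • w)) → Continuous p →
    (∀ x, 0 ≤ p x) → 0 < p 0 →
    (∀ s > 0, ∀ x, Integrable (fun y => gk V 0 x (-s) y * p (y + s • w)) ∧
      p x = ∫ y, gk V 0 x (-s) y * p (y + s • w)) → Sty K C1 Kw V w p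

/-- [LIBA] the limit environment at maximal points of `F_a` -/
def T_LIBA : Prop :=
  ∀ (N : ℕ) (f : ℝ → ℝ) (K cc C0 C9 η0 : ℝ) (U : Set (E N)) (u : ℝ → E N → ℝ), Stg f K U u →
    0 < cc → Frm U u cc C0 C9 η0 → ABd U u cc → ∀ α ≥ 0, ∀ M ≥ 0,
    AtR U cc (fun ε t x e => ∀ a, ‖a‖ = α → inner ℝ a e = 0 →
      Fa u cc e a t x ≤ (M + ε) * -dx u e t x) →
    ∀ (tn : ℕ → ℝ) (xn en an : ℕ → E N) (e a : E N), AtSeq U cc tn xn e →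
      (∀ η > 0, ∀ᶠ n in atTop, NDir U η (xn n) (en n)) → Tendsto en atTop (𝓝 e) →
      (∀ n, ‖an n‖ = α ∧ inner ℝ (an n) (en n) = 0) → Tendsto an atTop (𝓝 a) →
      (∀ ε > 0, ∀ᶠ n in atTop, (M - ε) * -dx u (en n) (tn n) (xn n) ≤
        Fa u cc (en n) (an n) (tn n) (xn n)) →
      ∃ (σ : ℕ → ℕ) (W : ℝ → E N → ℝ) (p : E N → ℝ), StrictMono σ ∧ Pt K W ∧
        (∀ t ≤ 0, ∀ x, Tendsto (fun n => pot f u (tn (σ n) + t) (xn (σ n) + x)) atTop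
          (𝓝 (W t x))) ∧
        (∀ t ≤ 0, ∀ x, W t x = W 0 (x - t • ((cc * (1 - α ^ 2) - M) • e - (2 * cc) • a))) ∧
        Continuous p ∧ (∀ x, 0 ≤ p x) ∧
        (∀ s > 0, ∀ x, Integrable (fun y => gk W 0 x (-s) y *
            p (y + s • ((cc * (1 - α ^ 2) - M) • e - (2 * cc) • a))) ∧
          p x = ∫ y, gk W 0 x (-s) y *
            p (y + s • ((cc * (1 - α ^ 2) - M) • e - (2 * cc) • a))) ∧
        ∀ s > 0, ∀ R > 0, TendstoUniformlyOn (fun n y =>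
          dx u (en (σ n)) (tn (σ n) - s) (xn (σ n) + y) /
            dx u (en (σ n)) (tn (σ n)) (xn (σ n)))
          (fun y => p (y + s • ((cc * (1 - α ^ 2) - M) • e - (2 * cc) • a))) atTop
          (closedBall 0 R)

/-- [LIBB] gain in the limit environment -/
def T_LIBB : Prop :=
  ∀ (N : ℕ) (K C1 cc α M ε1 : ℝ), 1 ≤ N → 0 < K → 1 ≤ C1 → 0 < cc → 0 ≤ α → 0 ≤ M → 0 < ε1 →
    ∃ S > 0, ∀ (V : ℝ → E N → ℝ) (e a : E N) (p : E N → ℝ), ‖e‖ = 1 → ‖a‖ = α →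
      inner ℝ a e = 0 → Sty K C1 (2 * cc * (1 + α) ^ 2 + M + 1) V
        ((cc * (1 - α ^ 2) - M) • e - (2 * cc) • a) p → p 0 = 1 →
      (cc * M / 2 - ε1) * S ≤
        Gn V (fun y => p (y + S • ((cc * (1 - α ^ 2) - M) • e - (2 * cc) • a)))
          ((cc + cc * α ^ 2 + M) / 2) cc e S 0 0

/-- [P0B] a barrier for the linearised equation with a zone compensated by `p` -/
def T_P0B : Prop :=
  ∀ (N : ℕ) (K cc γ κ1 ω c1 A1 Mb Mp C2 R d0 a b : ℝ) (V p : ℝ → E N → ℝ) (g : E N → ℝ)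
    (x0 e : E N), 1 ≤ N → Pt K V → ContinuousOn (fun q : ℝ × E N => V q.1 q.2) (Icc a b ×ˢ univ) →
    LinD V a b p → ContinuousOn (fun q : ℝ × E N => p q.1 q.2) (Icc a b ×ˢ univ) → a < b →
    ‖e‖ = 1 → 0 ≤ κ1 → γ = cc / 2 - κ1 → 0 ≤ γ → 0 ≤ ω → 0 ≤ A1 → 0 ≤ Mb → 0 < R → 0 ≤ C2 →
    (∀ t ∈ Icc a b, ∀ x, |p t x| ≤ Mp) →
    (∀ t ∈ Icc a b, ∀ x ∈ closedBall x0 R, 0 ≤ p t x ∧ (V t x ≤ cc ^ 2 / 4 + ω ∨
      K * Real.exp (-(γ * (d0 + inner ℝ (x - x0) e - cc * t)) + (κ1 ^ 2 + ω) * (t - a) + c1) ≤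
        A1 * p t x)) →
    Measurable g → (∀ y, 0 ≤ g y ∧ g y ≤ Mb) →
    (∀ y ∈ closedBall x0 R, g y ≤
      Real.exp (-(γ * (d0 + inner ℝ (y - x0) e - cc * a)) + c1)) →
    2 * (Mb * Real.exp (K * (b - a)) + A1 * (b - a) * Mp) ≤ C2 * Real.exp (R / (2 * √N)) →
    ∫ y, gk V b x0 a y * g y ≤
      Real.exp (-(γ * (d0 - cc * b)) + (κ1 ^ 2 + ω) * (b - a) + c1) + A1 * (b - a) * p b x0 +
        N * C2 * Real.exp ((K + 1) * (b - a) - R / (2 * √N))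

end Pool.Agent.H91.RF
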