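import Pool.Agent.H91.RF.Defs

/-!
# MP_609556_an, full answer: part A (terrace, profiles, macroscopic picture)
-/

open MeasureTheory Set Filter Topology Metric
open Pool.Agent.H29.TF (hk P)
open Pool.Agent.H91.RD

namespace Pool.Agent.H91.RF

/-- [TE1] `f > 0` near `1` -/
def T_TE1 : Prop :=
  ∀ (N : ℕ) (f : ℝ → ℝ) (K ρ : ℝ), 1 ≤ N → Reaction f → Lip f K → 0 < ρ → Invades N f ρ →
    ∃ δ > 0, δ ≤ 1 ∧ ∀ s ∈ Ioo (1 - δ) 1, 0 < f s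

/-- [TE2] `∫_s^1 f > 0` -/
def T_TE2 : Prop :=
  ∀ (N : ℕ) (f : ℝ → ℝ) (K ρ : ℝ), 1 ≤ N → Reaction f → Lip f K → 0 < ρ → Invades N f ρ →
    ∀ s ∈ Ico (0 : ℝ) 1, 0 < ∫ x in s..1, f x

/-- [TE3] `f > 0` just below a platform -/
def T_TE3 : Prop :=
  ∀ (f : ℝ → ℝ) (K b c β : ℝ) (y : ℝ → ℝ), Reaction f → Lip f K → 0 < b → b ≤ 1 → f b = 0 →
    Extr f b c y → 0 < β → β < b → (∀ τ ∈ Ioo 0 (b - β), 0 < y τ) → y (b - β) = 0 → f β = 0 →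
    (∀ s ∈ Ico 0 β, 0 < ∫ x in s..β, f x) → ∃ δ > 0, δ ≤ β ∧ ∀ s ∈ Ioo (β - δ) β, 0 < f s

/-- [TE4] components of speed at least `cst` have a minimal length -/
def T_TE4 : Prop :=
  ∀ (f : ℝ → ℝ) (K cst : ℝ), Reaction f → Lip f K → 0 < cst → ∃ δ > 0,
    ∀ (b c β : ℝ) (y : ℝ → ℝ), 0 < b → b ≤ 1 → f b = 0 → Extr f b c y → cst ≤ c → 0 ≤ β → β < b →
      (∀ τ ∈ Ioo 0 (b - β), 0 < y τ) → y (b - β) = 0 → f β = 0 → δ ≤ b - β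

/-- [TER] the terrace exists for every reaction with the invasion property -/
def T_TER : Prop :=
  ∀ (N : ℕ) (f : ℝ → ℝ) (ρ : ℝ), 1 ≤ N → Reaction f → 0 < ρ → Invades N f ρ →
    ∃ (J : ℕ) (b c : ℕ → ℝ) (y : ℕ → ℝ → ℝ), Ter f J b c y

/-- [KAPL] slope of the extremal trajectory at the lower platform -/
def T_KAPL : Prop :=
  ∀ (f : ℝ → ℝ) (K : ℝ) (J : ℕ) (b c : ℕ → ℝ) (y : ℕ → ℝ → ℝ), Reaction f → Lip f K →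
    Ter f J b c y → ∀ j < J, ∀ ε > 0, ∃ δ > 0, ∀ s, b j < s → s < b j + δ →
      ((c j + √(c j ^ 2 - 4 * fp f (b j))) / 2 - ε) * (s - b j) ≤ √(2 * y j (b (j + 1) - s)) ∧
      √(2 * y j (b (j + 1) - s)) ≤ ((c j + √(c j ^ 2 - 4 * fp f (b j))) / 2 + ε) * (s - b j)

/-- [SUPT] super-profile of a speed smaller than `c_j`, top below `b_{j+1}`, tail rate `kk`
(component not pulled) -/
def T_SUPT : Prop :=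
  ∀ (f : ℝ → ℝ) (K : ℝ) (J : ℕ) (b c : ℕ → ℝ) (y : ℕ → ℝ → ℝ), Reaction f → Lip f K →
    Ter f J b c y → ∀ j < J, 4 * fp f (b j) < c j ^ 2 → ∀ kk, c j / 2 < kk →
    kk ^ 2 - c j * kk + fp f (b j) < 0 → ∀ ε > 0,
    ∃ (c' κ C Λ : ℝ) (q : ℝ → ℝ), 0 < c' ∧ c' < c j ∧ 0 < κ ∧ 1 ≤ C ∧ 0 < Λ ∧
      ContDiff ℝ 2 q ∧ b (j + 1) - ε < q 0 ∧ b j < q 0 ∧ q 0 < b (j + 1) ∧ ∀ z ≥ 0, deriv q z < 0 ∧
        κ * |deriv q z| ≤ -(c' * deriv q z) - deriv (deriv q) z - f (q z) ∧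
        |deriv (deriv q) z| ≤ C * |deriv q z| ∧
        C⁻¹ * Real.exp (-(Λ * z)) ≤ q z - b j ∧ q z - b j ≤ C * Real.exp (-(kk * z))

/-- [SUPS] super-profile of a speed slightly larger than `c_j`, top above `b_{j+1}` -/
def T_SUPS : Prop :=
  ∀ (f : ℝ → ℝ) (K : ℝ) (J : ℕ) (b c : ℕ → ℝ) (y : ℕ → ℝ → ℝ), Reaction f → Lip f K →
    Ter f J b c y → ∀ j < J, ∀ σ > 0, ∃ (m C Λ : ℝ) (q : ℝ → ℝ), 0 < m ∧ 1 ≤ C ∧ 0 < Λ ∧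
      ContDiff ℝ 2 q ∧ (∀ z, deriv q z < 0) ∧ (∀ z, b j < q z) ∧ q 0 = b (j + 1) + m ∧
      (∀ z ≥ 0, deriv (deriv q) z + (c j + σ) * deriv q z + f (q z) ≤ 0) ∧
      (∀ z ≥ 0, |deriv (deriv q) z| ≤ C * |deriv q z|) ∧
      (∀ z ≥ 0, C⁻¹ * Real.exp (-(Λ * z)) ≤ q z - b j) ∧
      (∀ z ≥ 0, q z - b j ≤ C * Real.exp (-((c j / 2 - σ) * z))) ∧
      (4 * fp f (b j) < c j ^ 2 → c j / 2 < Λ ∧ Λ ^ 2 - c j * Λ + fp f (b j) < 0)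

/-- [SUBP] sub-profile of speed `cs` with a flat top `ℓ` close to `top`, crossing the level `m` -/
def T_SUBP : Prop :=
  ∀ (f : ℝ → ℝ) (K top cs m : ℝ) (y : ℝ → ℝ), Lip f K → 0 < top → top ≤ 1 → f top = 0 →
    (∃ δ > 0, ∀ s ∈ Ioo (top - δ) top, 0 < f s) → 0 < cs → 0 ≤ m → m < top → IsYb f top cs y →
    (∀ τ ∈ Ioc 0 (top - m), 0 < y τ) → ∀ ε > 0, ∃ (ℓ z1 : ℝ) (q : ℝ → ℝ),
      top - ε < ℓ ∧ m < ℓ ∧ ℓ < top ∧ 0 < z1 ∧ ContDiff ℝ 2 q ∧ (∀ z ≤ 0, q z = ℓ) ∧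
      (∀ z ∈ Ioc 0 z1, deriv q z < 0) ∧ q z1 = m ∧ (∀ z ≥ z1, q z ≤ m) ∧
      (∀ z ≥ z1 + 1, q z ≤ 0) ∧ (∃ C, ∀ z, |q z| + |deriv q z| + |deriv (deriv q) z| ≤ C) ∧
      ∀ z ≤ z1, 0 ≤ deriv (deriv q) z + cs * deriv q z + f (q z)

/-- [EXPB] expansion of balls over a base level `m`, from a sub-profile -/
def T_EXPB : Prop :=
  ∀ (N : ℕ) (f : ℝ → ℝ) (K cs m ℓ z1 c' : ℝ) (q : ℝ → ℝ), 1 ≤ N → Lip f K → 0 ≤ m → m < ℓ →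
    ℓ < 1 → 0 < z1 → ContDiff ℝ 2 q → (∀ z ≤ 0, q z = ℓ) → (∀ z ∈ Ioc 0 z1, deriv q z < 0) →
    q z1 = m → (∀ z ≥ z1, q z ≤ m) → (∀ z ≥ z1 + 1, q z ≤ 0) →
    (∃ C, ∀ z, |q z| + |deriv q z| + |deriv (deriv q) z| ≤ C) →
    (∀ z ≤ z1, 0 ≤ deriv (deriv q) z + cs * deriv q z + f (q z)) → 0 < f ℓ → 0 < c' → c' < cs →
    ∃ L R0 : ℝ, 0 < L ∧ 0 < R0 ∧ ∀ v : ℝ → E N → ℝ, Cls f v →
      (∀ t > 0, ∀ x, 0 ≤ v t x ∧ v t x ≤ 1) → ∀ t0 > 0, ∀ x0, ∀ R ≥ R0, ∀ s ≥ 0,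
      (∀ y ∈ closedBall x0 R, ℓ ≤ v t0 y) →
      (∀ τ ∈ Icc 0 s, ∀ y, dist y x0 ≤ R + c' * τ → m ≤ v (t0 + τ) y) →
      ∀ y, dist y x0 ≤ R - L + c' * s → ℓ ≤ v (t0 + s) y

/-- [EXPJ] expansion property of all platforms -/
def T_EXPJ : Prop :=
  ∀ (N : ℕ) (f : ℝ → ℝ) (K : ℝ) (J : ℕ) (b c : ℕ → ℝ) (y : ℕ → ℝ → ℝ), 1 ≤ N → Reaction f →
    Lip f K → Ter f J b c y → ∀ j < J, ExpJ N f (b (j + 1)) (c j)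

/-- [MA] lower bound behind the speed `c_j` -/
def T_MA : Prop :=
  ∀ (N : ℕ) (f : ℝ → ℝ) (K : ℝ) (U : Set (E N)) (u : ℝ → E N → ℝ) (J : ℕ) (b c : ℕ → ℝ)
    (y : ℕ → ℝ → ℝ), Stg f K U u → Ter f J b c y → ∀ j < J, ∀ ε > 0, ∃ T > 0, ∀ t ≥ T, ∀ x,
      infDist x U ≤ (c j - ε) * t → b (j + 1) - ε ≤ u t x

/-- [BQ] upper bound by the super-profile of the component `j` -/
def T_BQ : Prop :=
  ∀ (N : ℕ) (f : ℝ → ℝ) (K : ℝ) (U : Set (E N)) (u : ℝ → E N → ℝ) (J : ℕ) (b c : ℕ → ℝ)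
    (y : ℕ → ℝ → ℝ), Stg f K U u → Ter f J b c y → ∀ j < J,
    (j + 1 < J → ∀ ε > 0, ∃ T > 0, ∀ t ≥ T, ∀ x, (c (j + 1) + ε) * t ≤ infDist x U →
      u t x ≤ b (j + 1) + ε) →
    ∀ (σ m C Λ : ℝ) (q : ℝ → ℝ), 0 < σ → 0 < m → 1 ≤ C → 0 < Λ → ContDiff ℝ 2 q →
      (∀ z, deriv q z < 0) → (∀ z, b j < q z) → q 0 = b (j + 1) + m →
      (∀ z ≥ 0, deriv (deriv q) z + (c j + σ) * deriv q z + f (q z) ≤ 0) →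
      (∀ z ≥ 0, C⁻¹ * Real.exp (-(Λ * z)) ≤ q z - b j) →
    ∀ ρ > 0, ∀ M > 0, ∃ T > 0, ∀ t ≥ T, ∀ x, (c j + ρ) * t ≤ infDist x U →
      infDist x U ≤ M * t →
      u t x ≤ q (infDist x U - (c j + σ + ρ) * t) + Real.exp (-(M * t))

/-- [MB] upper bound ahead of the speed `c_j` -/
def T_MB : Prop :=
  ∀ (N : ℕ) (f : ℝ → ℝ) (K : ℝ) (U : Set (E N)) (u : ℝ → E N → ℝ) (J : ℕ) (b c : ℕ → ℝ)
    (y : ℕ → ℝ → ℝ), Stg f K U u → Ter f J b c y → ∀ j < J, ∀ ε > 0, ∃ T > 0, ∀ t ≥ T, ∀ x,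
      (c j + ε) * t ≤ infDist x U → u t x ≤ b j + ε

/-- [MAC] macroscopic picture at every speed -/
def T_MAC : Prop :=
  ∀ (N : ℕ) (f : ℝ → ℝ) (K : ℝ) (U : Set (E N)) (u : ℝ → E N → ℝ) (J : ℕ) (b c : ℕ → ℝ)
    (y : ℕ → ℝ → ℝ), Stg f K U u → Ter f J b c y → ∀ j < J, ∃ i k, i ≤ j ∧ j ≤ k ∧ k < J ∧
      (∀ l, i ≤ l → l ≤ k → c l = c j) ∧ (i = 0 ∨ ∃ i', i = i' + 1 ∧ c j < c i') ∧
      Mac U u (c j) (b i) (b (k + 1))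

/-- [MC] exponential bound ahead of the first speed -/
def T_MC : Prop :=
  ∀ (N : ℕ) (f : ℝ → ℝ) (K : ℝ) (U : Set (E N)) (u : ℝ → E N → ℝ) (J : ℕ) (b c : ℕ → ℝ)
    (y : ℕ → ℝ → ℝ), Stg f K U u → Ter f J b c y → ∀ ε > 0, ∃ T > 0, ∀ t ≥ T, ∀ x,
      c 0 * t ≤ infDist x U → infDist x U ≤ (c 0 + 2) * t →
      u t x ≤ Real.exp (-(c 0 / 2 * (infDist x U - c 0 * t)) + ε * t)

/-- [IEU] derivatives of a solution are bounded by Gaussian averages of `|u - b|`, `f(b) = 0` -/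
def T_IEU : Prop :=
  ∀ (N : ℕ) (f : ℝ → ℝ) (K : ℝ), Reaction f → Lip f K → ∃ C ≥ 1, ∀ (U : Set (E N))
    (u : ℝ → E N → ℝ), SolM f U u → ∀ b ∈ Icc (0 : ℝ) 1, f b = 0 → ∀ t ≥ 3, ∀ x,
      gr u t x + |dt u t x| ≤ C * ∫ y, hk 8 (x - y) * |u (t - 2) y - b|

/-- [AHD0] exponential decay of the derivatives ahead of the first speed -/
def T_AHD0 : Prop :=
  ∀ (N : ℕ) (f : ℝ → ℝ) (K : ℝ) (U : Set (E N)) (u : ℝ → E N → ℝ) (J : ℕ) (b c : ℕ → ℝ)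
    (y : ℕ → ℝ → ℝ), Stg f K U u → Ter f J b c y → AheadD U u (c 0)

/-- [AHDN] exponential decay of the derivatives ahead, over a stable platform -/
def T_AHDN : Prop :=
  ∀ (N : ℕ) (f : ℝ → ℝ) (K cc lo hi : ℝ) (U : Set (E N)) (u : ℝ → E N → ℝ), Stg f K U u →
    Mac U u cc lo hi → 0 < lo → f lo = 0 → fp f lo < 0 → AheadD U u cc

end Pool.Agent.H91.RF
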