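import Pool.Agent.H91.RF.Defs

/-!
# MP_609556_an, full answer: part F (linear equation, kernel, entropy, iteration)
-/

open MeasureTheory Set Filter Topology Metric
open Pool.Agent.H29.TF (hk P)
open Pool.Agent.H91.RD

namespace Pool.Agent.H91.RF

/-- as `LinD`, with a source `F` -/
structure LinS {N : ℕ} (V F : ℝ → E N → ℝ) (a b : ℝ) (z : ℝ → E N → ℝ) : Prop where
  bdd : ∃ M, ∀ t ∈ Icc a b, ∀ x, |z t x| ≤ M
  meas : Measurable (z a)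
  cont : ContinuousOn (fun p : ℝ × E N => z p.1 p.2) (Ioc a b ×ˢ univ)
  duh : ∀ s t, a ≤ s → s < t → t ≤ b → ∀ x,
    z t x = P (t - s) (z s) x + ∫ r in s..t, P (t - r) (fun y => V r y * z r y + F r y) x

/-- bounded measurable potential -/
structure Pt {N : ℕ} (K : ℝ) (V : ℝ → E N → ℝ) : Prop where
  K0 : 0 < K
  bdd : ∀ t x, |V t x| ≤ K
  meas : Measurable (fun p : ℝ × E N => V p.1 p.2)

/-- [FPC] the derivative of `f` -/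
def T_FPC : Prop :=
  ∀ (f : ℝ → ℝ) (K : ℝ), Reaction f → Lip f K → (∀ s, |fp f s| ≤ K) ∧
    ContinuousOn (fp f) (Icc 0 1) ∧ Measurable (fp f) ∧
    ∀ s ∈ Icc (0 : ℝ) 1, HasDerivWithinAt f (fp f s) (Icc 0 1) s

/-- [KE1] the iterated kernels: measurability and bounds -/
def T_KE1 : Prop :=
  ∀ (N : ℕ) (K : ℝ) (V : ℝ → E N → ℝ), Pt K V →
    (∀ n, Measurable (fun p : (ℝ × E N) × (ℝ × E N) => gkn V n p.1.1 p.1.2 p.2.1 p.2.2)) ∧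
    (∀ n s t, s < t → ∀ x y,
      |gkn V n t x s y| ≤ (K * (t - s)) ^ n / (n.factorial : ℝ) * hk (t - s) (x - y)) ∧
    (∀ s t, s < t → ∀ x y, Summable (fun n => gkn V n t x s y)) ∧
    ∀ s, Measurable (fun p : (ℝ × E N) × E N =>
      if s < p.1.1 then gk V p.1.1 p.1.2 s p.2 else 0)

/-- [KE2] Duhamel's formula for the kernel -/
def T_KE2 : Prop :=
  ∀ (N : ℕ) (K : ℝ) (V : ℝ → E N → ℝ), Pt K V → ∀ s t, s < t → ∀ x y,
    gk V t x s y = hk (t - s) (x - y) +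
      ∫ r in s..t, ∫ z, hk (t - r) (x - z) * (V r z * gk V r z s y)

/-- [KGR] Gronwall's lemma for Duhamel inequalities -/
def T_KGR : Prop :=
  ∀ (N : ℕ) (K s b : ℝ) (H : ℝ → E N → ℝ), 0 ≤ K →
    Measurable (fun p : ℝ × E N => if s < p.1 then H p.1 p.2 else 0) →
    (∀ t, s < t → t ≤ b → ∀ x,
      |H t x| ≤ K * ∫ r in s..t, ∫ z, hk (t - r) (x - z) * |H r z|) →
    ((∃ A, ∀ t, s < t → t ≤ b → ∀ x, |H t x| ≤ A) ∨
      ∃ A y, ∀ t, s < t → t ≤ b → ∀ x, |H t x| ≤ A * hk (t - s) (x - y)) →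
    ∀ t, s < t → t ≤ b → ∀ x, H t x = 0

/-- [KBD] lower and upper bounds of the kernel -/
def T_KBD : Prop :=
  ∀ (N : ℕ) (K : ℝ) (V : ℝ → E N → ℝ), Pt K V → ∀ s t, s < t → ∀ x y,
    Real.exp (-(K * (t - s))) * hk (t - s) (x - y) ≤ gk V t x s y ∧
      gk V t x s y ≤ Real.exp (K * (t - s)) * hk (t - s) (x - y)

/-- [KER] bounds and Chapman-Kolmogorov for the kernel -/
def T_KER : Prop :=
  ∀ (N : ℕ) (K : ℝ) (V : ℝ → E N → ℝ), Pt K V →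
    (∀ s t, s < t → Measurable (fun p : E N × E N => gk V t p.1 s p.2)) ∧
    (∀ s t, s < t → ∀ x y, Real.exp (-(K * (t - s))) * hk (t - s) (x - y) ≤ gk V t x s y ∧
      gk V t x s y ≤ Real.exp (K * (t - s)) * hk (t - s) (x - y)) ∧
    (∀ s r t, s < r → r < t → ∀ x y, ∫ z, gk V t x r z * gk V r z s y = gk V t x s y)

/-- [KREP] representation of solutions -/
def T_KREP : Prop :=
  ∀ (N : ℕ) (K a b : ℝ) (V z : ℝ → E N → ℝ), Pt K V → LinD V a b z →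
    ∀ s t, a ≤ s → s < t → t ≤ b → ∀ x, z t x = ∫ y, gk V t x s y * z s y

/-- [KEX] existence of solutions -/
def T_KEX : Prop :=
  ∀ (N : ℕ) (K s b : ℝ) (V : ℝ → E N → ℝ) (g : E N → ℝ), Pt K V → s < b → Measurable g →
    (∃ M, ∀ y, |g y| ≤ M) →
    LinD V s b (fun t x => if t ≤ s then g x else ∫ y, gk V t x s y * g y) ∧
    (UniformContinuous g → ContinuousOn
      (fun p : ℝ × E N => if p.1 ≤ s then g p.2 else ∫ y, gk V p.1 p.2 s y * g y)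
      (Icc s b ×ˢ univ))

/-- [KCV] convergence of kernels -/
def T_KCV : Prop :=
  ∀ (N : ℕ) (K s t : ℝ) (V : ℕ → ℝ → E N → ℝ) (W : ℝ → E N → ℝ), (∀ n, Pt K (V n)) → Pt K W →
    s < t → (∀ r ∈ Ioo s t, ∀ x, Tendsto (fun n => V n r x) atTop (𝓝 (W r x))) →
    ∀ x y, Tendsto (fun n => gk (V n) t x s y) atTop (𝓝 (gk W t x s y))

/-- [KINV] translation invariance and locality of the kernel -/
def T_KINV : Prop :=
  ∀ (N : ℕ) (V : ℝ → E N → ℝ),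
    (∀ (τ : ℝ) (ξ : E N) (t : ℝ) (x : E N) (s : ℝ) (y : E N),
      gk (fun t x => V (τ + t) (ξ + x)) t x s y = gk V (τ + t) (ξ + x) (τ + s) (ξ + y)) ∧
    (∀ (W : ℝ → E N → ℝ) (s t : ℝ), s < t → (∀ r ∈ Ioo s t, ∀ x, V r x = W r x) →
      ∀ x y, gk V t x s y = gk W t x s y)

/-- [KSYM] the kernel of a potential moving with velocity `w`: after conjugation it is symmetric -/
def T_KSYM : Prop :=
  ∀ (N : ℕ) (K : ℝ) (V : ℝ → E N → ℝ) (w : E N), Pt K V →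
    (∀ t ≤ 0, ∀ x, V t x = V 0 (x - t • w)) → ∀ s > 0, ∀ x y,
      Real.exp (inner ℝ w (x - y) / 2) * gk V 0 x (-s) (y - s • w) =
        Real.exp (inner ℝ w (y - x) / 2) * gk V 0 y (-s) (x - s • w)

/-- [LINU] the derivatives of a solution solve the linearised equation; bounds -/
def T_LINU : Prop :=
  ∀ (N : ℕ) (f : ℝ → ℝ) (K : ℝ) (U : Set (E N)) (u : ℝ → E N → ℝ), Reaction f → Lip f K →
    SolM f U u → Pt K (pot f u) ∧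
      ContinuousOn (fun p : ℝ × E N => pot f u p.1 p.2) (Ioi 0 ×ˢ univ) ∧
      (∀ a b, 0 < a → a < b → (∀ h, LinD (pot f u) a b (dx u h)) ∧ LinD (pot f u) a b (dt u)) ∧
      ∃ C, ∀ t ≥ 1, ∀ x, gr u t x ≤ C ∧ |dt u t x| ≤ C ∧
        ∀ x', ‖fderiv ℝ (u t) x - fderiv ℝ (u t) x'‖ ≤ C * ‖x - x'‖

/-- [CONV] convergence of the derivatives -/
def T_CONV : Prop :=
  ∀ (N : ℕ) (f : ℝ → ℝ) (K : ℝ) (U : Set (E N)) (u : ℝ → E N → ℝ) (tn : ℕ → ℝ) (xn : ℕ → E N)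
    (w : ℝ → E N → ℝ), Reaction f → Lip f K → SolM f U u → Tendsto tn atTop atTop → Ent f w →
    LimAt u tn xn w → (∀ t, ContDiff ℝ 2 (w t)) ∧
      (∀ t x, HasDerivAt (fun s => w s x) (Laplacian.laplacian (w t) x + f (w t x)) t) ∧
      (∀ R > 0, TendstoUniformlyOn
        (fun n (p : ℝ × E N) => fderiv ℝ (u (tn n + p.1)) (xn n + p.2))
        (fun p => fderiv ℝ (w p.1) p.2) atTop (Icc (-R) R ×ˢ closedBall 0 R)) ∧
      (∀ R > 0, TendstoUniformlyOn (fun n (p : ℝ × E N) => dt u (tn n + p.1) (xn n + p.2))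
        (fun p => dt w p.1 p.2) atTop (Icc (-R) R ×ˢ closedBall 0 R)) ∧
      Pt K (potE f w) ∧
      ∀ a b, a < b → (∀ h, LinD (potE f w) a b (dx w h)) ∧ LinD (potE f w) a b (dt w)

/-- [IEL] interior estimates for the linear equation: gradient and modulus in time -/
def T_IEL : Prop :=
  ∀ (N : ℕ) (K : ℝ), 0 < K → ∃ C ≥ 1, ∀ (V z : ℝ → E N → ℝ) (a b : ℝ), Pt K V → LinD V a b z →
    (∀ s t, a ≤ s → s < t → t ≤ b → t ≤ s + 1 → DifferentiableOn ℝ (z t) univ ∧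
      ∀ x, ‖fderiv ℝ (z t) x‖ ≤ C / √(t - s) * ∫ y, hk (2 * (t - s)) (x - y) * |z s y|) ∧
    (∀ s t t', a ≤ s → s < t → t ≤ t' → t' ≤ b → t' - t ≤ t - s → t ≤ s + 1 → ∀ x,
      |z t' x - z t x| ≤ C * √((t' - t) / (t - s)) * ∫ y, hk (4 * (t - s)) (x - y) * |z s y|)

/-- [MPV] comparison of a Duhamel solution with a smooth supersolution -/
def T_MPV : Prop :=
  ∀ (N : ℕ) (K a b ρ : ℝ) (V F z B : ℝ → E N → ℝ), a < b → Pt K V →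
    ContinuousOn (fun p : ℝ × E N => V p.1 p.2) (Icc a b ×ˢ univ) →
    ContinuousOn (fun p : ℝ × E N => F p.1 p.2) (Icc a b ×ˢ univ) → (∃ M, ∀ t x, |F t x| ≤ M) →
    LinS V F a b z → ContinuousOn (fun p : ℝ × E N => z p.1 p.2) (Icc a b ×ˢ univ) →
    ContinuousOn (fun p : ℝ × E N => B p.1 p.2) (Icc a b ×ˢ univ) →
    (∀ t ∈ Icc a b, ∀ x, ρ ≤ ‖x‖ → z t x ≤ B t x) → (∀ x, z a x ≤ B a x) →
    (∀ t ∈ Ioc a b, ∀ x, B t x < z t x → ContDiffAt ℝ 2 (B t) x ∧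
      DifferentiableAt ℝ (fun s => B s x) t ∧
      Laplacian.laplacian (B t) x + V t x * B t x + F t x ≤ deriv (fun s => B s x) t) →
    ∀ t ∈ Icc a b, ∀ x, z t x ≤ B t x

/-- [TLIN] multiplication by time -/
def T_TLIN : Prop :=
  ∀ (N : ℕ) (K a b : ℝ) (V z : ℝ → E N → ℝ), Pt K V → LinD V a b z →
    LinS V z a b (fun t x => (t - a) * z t x)

/-- [ENT] entropy inequalities for one step -/
def T_ENT : Prop :=
  ∀ (N : ℕ) (K S t : ℝ) (V : ℝ → E N → ℝ) (h : E N → ℝ) (x : E N), Pt K V → 0 < S →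
    Measurable h → (∀ y, 0 ≤ h y) → (∃ M, ∀ y, h y ≤ M) → 0 < ∫ y, gk V t x (t - S) y * h y →
    (∀ e : E N, ‖e‖ = 1 → Real.log (∫ y, gk V t x (t - S) y * h y) - K * S +
      Ex V h S t x (fun y => inner ℝ (y - x) e) ^ 2 / (4 * S) ≤
      Ex V h S t x (fun y => Real.log (h y))) ∧
    Real.log (∫ y, gk V t x (t - S) y * h y) - K * S - N / 2 * Real.log 2 +
      Ex V h S t x (fun y => ‖y - x‖ ^ 2) / (8 * S) ≤ Ex V h S t x (fun y => Real.log (h y))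

/-- [TRIV] trivial lower bound of the gain -/
def T_TRIV : Prop :=
  ∀ (N : ℕ) (K S t β c : ℝ) (V : ℝ → E N → ℝ) (h : E N → ℝ) (x e : E N), Pt K V → 0 < S →
    0 ≤ β → 0 ≤ c → ‖e‖ = 1 → Measurable h → (∀ y, 0 ≤ h y) → (∃ M, ∀ y, h y ≤ M) →
    0 < ∫ y, gk V t x (t - S) y * h y →
    Real.log (∫ y, gk V t x (t - S) y * h y) - (K + β ^ 2) * S ≤ Gn V h β c e S t x

/-- [LCPT] compactness of normalised solutions of linear equations -/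
def T_LCPT : Prop :=
  ∀ (N : ℕ) (K : ℝ) (V : ℕ → ℝ → E N → ℝ) (W : ℝ → E N → ℝ) (z : ℕ → ℝ → E N → ℝ) (a : ℕ → ℝ),
    (∀ n, Pt K (V n)) → Pt K W → (∀ t < 0, ∀ x, Tendsto (fun n => V n t x) atTop (𝓝 (W t x))) →
    Tendsto a atTop atBot → (∀ n, LinD (V n) (a n) 0 (z n)) →
    (∀ S > 0, ∃ B, ∀ᶠ n in atTop, ∫ y, hk S y * |z n (-S) y| ≤ B) →
    ∃ (σ : ℕ → ℕ) (ζ : ℝ → E N → ℝ), StrictMono σ ∧
      (∀ R > 0, ∀ r > 0, TendstoUniformlyOn (fun n (p : ℝ × E N) => z (σ n) p.1 p.2)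
        (fun p => ζ p.1 p.2) atTop (Icc (-R) (-r) ×ˢ closedBall 0 R)) ∧
      ContinuousOn (fun p : ℝ × E N => ζ p.1 p.2) (Iio 0 ×ˢ univ) ∧
      (∀ s t, s < t → t < 0 → ∀ x, Integrable (fun y => gk W t x s y * ζ s y) ∧
        ζ t x = ∫ y, gk W t x s y * ζ s y) ∧
      ∀ S > 0, Integrable (fun y => hk S y * ζ (-S) y)

/-- kernel of the process seen in the frame moving with the velocity `w` -/
noncomputable def kw {N : ℕ} (V : ℝ → E N → ℝ) (w : E N) (p : E N → ℝ) (τ : ℝ) (x y : E N) : ℝ :=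
  gk V 0 x (-τ) (y - τ • w) * p y / p x

/-- steady environment moving with the velocity `w` -/
structure Sty {N : ℕ} (K C1 Kw : ℝ) (V : ℝ → E N → ℝ) (w : E N) (p : E N → ℝ) : Prop where
  pt : Pt K V
  hC1 : 1 ≤ C1
  wle : ‖w‖ ≤ Kw
  steady : ∀ t ≤ 0, ∀ x, V t x = V 0 (x - t • w)
  pos : ∀ x, 0 < p x
  har : ∀ x y, p x ≤ Real.exp (C1 * ‖x - y‖) * p y
  eig : ∀ s > 0, ∀ x, p x = ∫ y, gk V 0 x (-s) y * p (y + s • w)

/-- [PWA] the kernel `kw`: Markov, semigroup, reversible, moments -/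
def T_PWA : Prop :=
  ∀ (N : ℕ) (K C1 Kw θm : ℝ), 0 < θm → ∃ C ≥ 1, ∀ (V : ℝ → E N → ℝ) (w : E N) (p : E N → ℝ),
    Sty K C1 Kw V w p →
    (∀ τ > 0, Measurable (fun q : E N × E N => kw V w p τ q.1 q.2)) ∧
    (∀ τ > 0, ∀ x y, 0 < kw V w p τ x y) ∧ (∀ τ > 0, ∀ x, ∫ y, kw V w p τ x y = 1) ∧
    (∀ τ > 0, ∀ τ' > 0, ∀ x y, ∫ z, kw V w p τ x z * kw V w p τ' z y = kw V w p (τ + τ') x y) ∧
    (∀ τ > 0, ∀ x y, Real.exp (inner ℝ w x) * p x ^ 2 * kw V w p τ x y =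
      Real.exp (inner ℝ w y) * p y ^ 2 * kw V w p τ y x) ∧
    (∀ τ, 0 < τ → τ ≤ 1 → ∀ x y,
      kw V w p τ x y ≤ C * hk τ (x - y + τ • w) * Real.exp (C1 * ‖y - x‖)) ∧
    (∀ τ, 0 < τ → τ ≤ 1 → ∀ x, ‖∫ y, kw V w p τ x y • (y - x)‖ ≤ C * τ) ∧
    (∀ τ, 0 < τ → τ ≤ 1 → ∀ θ : E N, ‖θ‖ ≤ θm → ∀ x,
      ∫ y, kw V w p τ x y * Real.exp (inner ℝ θ (y - x)) ≤
        1 + inner ℝ θ (∫ y, kw V w p τ x y • (y - x)) + ‖θ‖ ^ 2 * τ + C * (τ * √τ))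

/-- the law at time `τ` of the process started at `0` -/
noncomputable def rw0 {N : ℕ} (V : ℝ → E N → ℝ) (w : E N) (p : E N → ℝ) (τ : ℝ) (y : E N) : ℝ :=
  kw V w p τ 0 y

/-- relative entropy with respect to the reversible measure -/
noncomputable def Jen {N : ℕ} (V : ℝ → E N → ℝ) (w : E N) (p : E N → ℝ) (r : ℝ) : ℝ :=
  ∫ y, rw0 V w p r y * (Real.log (rw0 V w p r y) - inner ℝ w y - 2 * Real.log (p y))

/-- mean position -/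
noncomputable def men {N : ℕ} (V : ℝ → E N → ℝ) (w : E N) (p : E N → ℝ) (r : ℝ) : E N :=
  ∫ y, rw0 V w p r y • y

/-- [PWB] one step of the entropy production -/
def T_PWB : Prop :=
  ∀ (N : ℕ) (K C1 Kw θm : ℝ), 0 < θm → ∃ C ≥ 1, ∀ (V : ℝ → E N → ℝ) (w : E N) (p : E N → ℝ),
    Sty K C1 Kw V w p → ∀ s > 0, ∀ τ, 0 < τ → τ ≤ 1 → ∀ θ : E N, ‖θ‖ ≤ θm →
      Jen V w p (s + τ) ≤ Jen V w p s + inner ℝ θ (men V w p (s + τ) - men V w p s) +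
        inner ℝ θ (men V w p (s + 2 * τ) - men V w p (s + τ)) + ‖θ‖ ^ 2 * τ + C * (τ * √τ)

/-- [PWC] entropy at the two ends -/
def T_PWC : Prop :=
  ∀ (N : ℕ) (K C1 Kw : ℝ), 0 < Kw → ∃ C ≥ 1, ∀ (V : ℝ → E N → ℝ) (w : E N) (p : E N → ℝ),
    Sty K C1 Kw V w p →
      (∀ τ, 0 < τ → τ ≤ 1 → Jen V w p τ ≤ C * (1 + Real.log (1 / τ)) - 2 * Real.log (p 0)) ∧
      (∀ S ≥ 1, -(C * (1 + Real.log S)) - inner ℝ w (men V w p S) -
        2 * (∫ y, rw0 V w p S y * Real.log (p y)) ≤ Jen V w p S) ∧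
      (∀ S > 0, ∀ τ, 0 < τ → τ ≤ 1 → ‖men V w p (S + τ) - men V w p S‖ ≤ C * τ ∧
        ‖men V w p τ‖ ≤ C * τ) ∧
      ∀ S > 0, ∀ φ : E N → ℝ, (∫ y, rw0 V w p S y * φ y) =
        ∫ y, gk V 0 0 (-S) y * p (y + S • w) / p 0 * φ (y + S • w)

/-- [PW] entropy inequality in an environment which moves with the velocity `w` -/
def T_PW : Prop :=
  ∀ (N : ℕ) (K C1 Kw ε : ℝ), 1 ≤ N → 0 < K → 1 ≤ C1 → 0 < Kw → 0 < ε → ∃ S0 > 0, ∀ S ≥ S0,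
    ∀ (V : ℝ → E N → ℝ) (w : E N) (p : E N → ℝ), Sty K C1 Kw V w p →
      ∀ m : E N, m = ∫ y, (gk V 0 0 (-S) y * p (y + S • w) / p 0) • y →
        Real.log (p 0) + (‖m‖ ^ 2 / S + inner ℝ m w) / 2 - ε * S ≤
          ∫ y, gk V 0 0 (-S) y * p (y + S • w) / p 0 * Real.log (p (y + S • w))

/-- [ITER] the iteration lemma -/
def T_ITER : Prop :=
  ∀ (N n : ℕ) (G : ℕ → E N → E N → ℝ) (h D Sb Φ W : ℕ → E N → ℝ) (Bx A : Set (E N))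
    (g κ ς B1 B2 M : ℝ) (x0 : E N), MeasurableSet Bx → MeasurableSet A →
    (∀ j, Measurable (fun p : E N × E N => G j p.1 p.2)) → (∀ j x y, 0 ≤ G j x y) →
    (∀ j x, Integrable (G j x) ∧ ∫ y, G j x y ≤ M) →
    (∀ j, Measurable (h j) ∧ Measurable (D j) ∧ Measurable (Sb j) ∧ Measurable (Φ j) ∧
      Measurable (W j)) →
    (∀ j x, 0 ≤ h j x ∧ h j x ≤ M ∧ 0 ≤ D j x ∧ 0 ≤ Sb j x ∧ 0 ≤ W j x) →
    0 ≤ g → 0 ≤ κ → 0 ≤ ς → 0 ≤ B1 → 0 ≤ B2 →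
    (∀ j < n, ∀ x ∈ Bx, Integrable (fun y => G j x y * D (j + 1) y) ∧
      Integrable (fun y => G j x y * Sb (j + 1) y) ∧
      Integrable (fun y => G j x y * W (j + 1) y) ∧
      Integrable (fun y => G j x y * (h (j + 1) y * Φ (j + 1) y))) →
    (∀ j ≤ n, ∀ x ∈ Bx, 0 < h j x) →
    (∀ j < n, ∀ x ∈ Bx, h j x ≤ ∫ y, G j x y * h (j + 1) y) →
    (∀ j < n, ∀ x ∈ Bx, ∫ y, G j x y * D (j + 1) y ≤ D j x + ς * h j x) →
    (∀ j < n, ∀ x ∈ Bx, ∫ y, G j x y * Sb (j + 1) y ≤ Sb j x) →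
    (∀ j < n, ∀ x ∈ Bx, ∫ y, G j x y * W (j + 1) y ≤ W j x) →
    (∀ j < n, ∀ x ∈ Bx, Φ j x + g - κ * (D j x / h j x) ≤
      (∫ y, G j x y * (h (j + 1) y * Φ (j + 1) y)) / ∫ y, G j x y * h (j + 1) y) →
    (∀ j ≤ n, ∀ x ∉ Bx, h j x * (Φ j x + n * g) ≤ Sb j x) →
    (∀ x ∈ Bx, Φ n x ≤ B1 ∨ (x ∈ A ∧ Φ n x ≤ B1 + B2)) →
    (∀ x ∈ Bx ∩ A, h n x ≤ W n x) → x0 ∈ Bx →
    Φ 0 x0 + n * g - κ * n * (D 0 x0 / h 0 x0) - Sb 0 x0 / h 0 x0 - κ * n ^ 2 * ς ≤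
      B1 + B2 * (W 0 x0 / h 0 x0)

end Pool.Agent.H91.RF
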