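import Pool.Agent.H91.RD.Targets3

/-!
# MP_609556_an, full answer: working definitions
-/

open MeasureTheory Set Filter Topology Metric
open Pool.Agent.H29.TF (hk P)
open Pool.Agent.H91.RD

namespace Pool.Agent.H91.RF

/-! ### Derivatives, potential, kernel -/

/-- the derivative of `f` on `[0,1]` (zero outside) -/
noncomputable def fp (f : ℝ → ℝ) (s : ℝ) : ℝ := derivWithin f (Icc 0 1) s

/-- derivative of `u(t,·)` in the direction `h` -/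
noncomputable def dx {N : ℕ} (u : ℝ → E N → ℝ) (h : E N) (t : ℝ) (x : E N) : ℝ :=
  fderiv ℝ (u t) x h

/-- time derivative -/
noncomputable def dt {N : ℕ} (u : ℝ → E N → ℝ) (t : ℝ) (x : E N) : ℝ := deriv (fun s => u s x) t

/-- norm of the space gradient -/
noncomputable def gr {N : ℕ} (u : ℝ → E N → ℝ) (t : ℝ) (x : E N) : ℝ := ‖fderiv ℝ (u t) x‖

/-- potential of the linearised equation (positive times; zero otherwise) -/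
noncomputable def pot {N : ℕ} (f : ℝ → ℝ) (u : ℝ → E N → ℝ) (t : ℝ) (x : E N) : ℝ :=
  if 0 < t then fp f (u t x) else 0

/-- potential of the linearised equation along an entire solution -/
noncomputable def potE {N : ℕ} (f : ℝ → ℝ) (w : ℝ → E N → ℝ) (t : ℝ) (x : E N) : ℝ :=
  fp f (w t x)

/-- iterated Duhamel kernels -/
noncomputable def gkn {N : ℕ} (V : ℝ → E N → ℝ) : ℕ → ℝ → E N → ℝ → E N → ℝ
  | 0 => fun t x s y => hk (t - s) (x - y)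
  | n + 1 => fun t x s y => ∫ r in s..t, ∫ z, hk (t - r) (x - z) * (V r z * gkn V n r z s y)

/-- the kernel `G(t,x;s,y)` of `z_t = Δ z + V z` -/
noncomputable def gk {N : ℕ} (V : ℝ → E N → ℝ) (t : ℝ) (x : E N) (s : ℝ) (y : E N) : ℝ :=
  ∑' n, gkn V n t x s y

/-- bounded Duhamel solution of `z_t = Δ z + V z` on `[a,b]` -/
structure LinD {N : ℕ} (V : ℝ → E N → ℝ) (a b : ℝ) (z : ℝ → E N → ℝ) : Prop where
  bdd : ∃ M, ∀ t ∈ Icc a b, ∀ x, |z t x| ≤ M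
  meas : Measurable (z a)
  cont : ContinuousOn (fun p : ℝ × E N => z p.1 p.2) (Ioc a b ×ˢ univ)
  duh : ∀ s t, a ≤ s → s < t → t ≤ b → ∀ x,
    z t x = P (t - s) (z s) x + ∫ r in s..t, P (t - r) (fun y => V r y * z r y) x

/-- one-step average: `∫ G(t,x;t-S,y) h(y) φ(y) dy / ∫ G(t,x;t-S,y) h(y) dy` -/
noncomputable def Ex {N : ℕ} (V : ℝ → E N → ℝ) (h : E N → ℝ) (S t : ℝ) (x : E N)
    (φ : E N → ℝ) : ℝ :=
  (∫ y, gk V t x (t - S) y * h y * φ y) / ∫ y, gk V t x (t - S) y * h y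

/-- the gain functional
`E[log h(X)] + β (E⟨X - x, e⟩ + c S)`, `X` distributed as in `Ex` -/
noncomputable def Gn {N : ℕ} (V : ℝ → E N → ℝ) (h : E N → ℝ) (β c : ℝ) (e : E N) (S t : ℝ)
    (x : E N) : ℝ :=
  Ex V h S t x (fun y => Real.log (h y)) + β * (Ex V h S t x (fun y => inner ℝ (y - x) e) + c * S)

/-! ### Standing hypotheses -/

/-- the standing hypotheses on `f`, `U`, `u` -/
structure Stg {N : ℕ} (f : ℝ → ℝ) (K : ℝ) (U : Set (E N)) (u : ℝ → E N → ℝ) : Prop where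
  N1 : 1 ≤ N
  reac : Reaction f
  lip : Lip f K
  ne : U.Nonempty
  condC : CondC U
  sol : SolM f U u
  ignites : ∀ η > 0, ∀ R > 0, ∃ D > 0, ∃ t1 > 0, ∀ y ∈ U, ∃ p, dist y p ≤ D ∧
    ∀ t ≥ t1, ∀ z ∈ closedBall p R, 1 - η ≤ u t z

/-- the terrace of `f`: platforms `0 = b_0 < ⋯ < b_J = 1`, the component `(b_j, b_{j+1})` has the
extremal speed `c_j` (phase plane solution `y_j` starting at `b_{j+1}`), `c_{j+1} ≤ c_j` -/
structure Ter (f : ℝ → ℝ) (J : ℕ) (b c : ℕ → ℝ) (y : ℕ → ℝ → ℝ) : Prop where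
  J0 : 0 < J
  b0 : b 0 = 0
  bJ : b J = 1
  lt : ∀ j < J, b j < b (j + 1)
  zer : ∀ j ≤ J, f (b j) = 0
  ext : ∀ j < J, Extr f (b (j + 1)) (c j) (y j)
  pos : ∀ j < J, ∀ τ ∈ Ioo 0 (b (j + 1) - b j), 0 < y j τ
  hit : ∀ j < J, y j (b (j + 1) - b j) = 0
  mono : ∀ j, j + 1 < J → c (j + 1) ≤ c j
  near : ∀ j < J, ∃ δ > 0, b j ≤ b (j + 1) - δ ∧
    ∀ s ∈ Ioo (b (j + 1) - δ) (b (j + 1)), 0 < f s
  kap : ∀ j < J, 4 * fp f (b j) ≤ c j ^ 2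
  top : ∀ j < J, fp f (b (j + 1)) ≤ 0

/-- macroscopic picture at the speed `cc`: level `hi` behind, level `lo` ahead -/
structure Mac {N : ℕ} (U : Set (E N)) (u : ℝ → E N → ℝ) (cc lo hi : ℝ) : Prop where
  cpos : 0 < cc
  lo0 : 0 ≤ lo
  lohi : lo < hi
  hi1 : hi ≤ 1
  ahead : ∀ ε > 0, ∃ T > 0, ∀ t ≥ T, ∀ x, (cc + ε) * t ≤ infDist x U → u t x ≤ lo + ε
  behind : ∀ ε > 0, ∃ T > 0, ∀ t ≥ T, ∀ x, infDist x U ≤ (cc - ε) * t → hi - ε ≤ u t x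
  low : ∃ η > 0, ∀ ε > 0, ∃ T > 0, ∀ t ≥ T, ∀ x, infDist x U ≤ (cc + η) * t → lo - ε ≤ u t x
  high : ∃ η > 0, ∀ ε > 0, ∃ T > 0, ∀ t ≥ T, ∀ x, (cc - η) * t ≤ infDist x U → u t x ≤ hi + ε

/-! ### Directions and statements at a ratio -/

/-- `e` is a unit vector within `η` of the direction from a nearest point of `closure U` to `x` -/
def NDir {N : ℕ} (U : Set (E N)) (η : ℝ) (x e : E N) : Prop :=
  ‖e‖ = 1 ∧ ∃ ξ e0, Dir U x ξ e0 ∧ ‖e - e0‖ ≤ η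

/-- the property `Q ε t x e` holds at the ratio `cc` -/
def AtR {N : ℕ} (U : Set (E N)) (cc : ℝ) (Q : ℝ → ℝ → E N → E N → Prop) : Prop :=
  ∀ ε > 0, ∃ η > 0, ∃ T > 0, ∀ t ≥ T, ∀ x e, NDir U η x e →
    |infDist x U - cc * t| ≤ η * t → Q ε t x e

/-- sequences of points at the ratio `cc`, with direction `e` -/
def AtSeq {N : ℕ} (U : Set (E N)) (cc : ℝ) (tn : ℕ → ℝ) (xn : ℕ → E N) (e : E N) : Prop :=
  Tendsto tn atTop atTop ∧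
    ∀ η > 0, ∀ᶠ n in atTop, NDir U η (xn n) e ∧ |infDist (xn n) U - cc * tn n| ≤ η * tn n

/-- positivity and lower bound of `p = -∂_e u` at the ratio `cc` -/
structure Frm {N : ℕ} (U : Set (E N)) (u : ℝ → E N → ℝ) (cc C0 C9 η0 : ℝ) : Prop where
  hC0 : 1 ≤ C0
  hC9 : 1 ≤ C9
  hη0 : 0 < η0
  pos : ∃ T > 0, ∀ t ≥ T, ∀ x e, NDir U η0 x e → |infDist x U - cc * t| ≤ η0 * t →
    0 < -dx u e t x ∧ gr u t x ≤ C0 * -dx u e t x
  low : ∀ ε > 0, ∃ T > 0, ∀ t ≥ T, ∀ x e, NDir U η0 x e → |infDist x U - cc * t| ≤ η0 * t →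
    Real.exp (-(C9 * |infDist x U - cc * t| + ε * t)) ≤ -dx u e t x

/-- exponential decay ahead of the ratio `cc` -/
def AheadD {N : ℕ} (U : Set (E N)) (u : ℝ → E N → ℝ) (cc : ℝ) : Prop :=
  ∃ η > 0, ∀ ε > 0, ∃ T > 0, ∀ t ≥ T, ∀ x, cc * t ≤ infDist x U → infDist x U ≤ (cc + η) * t →
    gr u t x + |dt u t x| ≤ Real.exp (-(cc / 2 * (infDist x U - cc * t)) + ε * t)

/-- wake of a faster front ahead of the ratio `cc` -/
def AheadW {N : ℕ} (U : Set (E N)) (u : ℝ → E N → ℝ) (cc : ℝ) : Prop :=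
  ∃ κ > 0, ∃ η > 0, ∀ θ > 0, ∀ ω > 0, ∃ T > 0, ∀ t ≥ T, ∀ x ξ e, Dir U x ξ e →
    (cc + ω) * t ≤ infDist x U → infDist x U ≤ (cc + η) * t →
    0 < -dx u e t x ∧ gr u t x ≤ (1 + θ) * -dx u e t x ∧ (cc + κ) * -dx u e t x ≤ dt u t x

/-- lower bound of the time derivative by the gradient at the ratio `cc` -/
def ABd {N : ℕ} (U : Set (E N)) (u : ℝ → E N → ℝ) (cc : ℝ) : Prop :=
  ∃ A > 0, ∃ η > 0, ∃ T > 0, ∀ t ≥ T, ∀ x e, NDir U η x e →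
    |infDist x U - cc * t| ≤ η * t → -dt u t x ≤ A * -dx u e t x

/-- the K-inequality `u_t p ≥ c |∇u|² - o(1) p²` at the ratio `cc` -/
def KIn {N : ℕ} (U : Set (E N)) (u : ℝ → E N → ℝ) (cc : ℝ) : Prop :=
  AtR U cc fun ε t x e => cc * gr u t x ^ 2 ≤ (dt u t x + ε * -dx u e t x) * -dx u e t x

/-- the gradient is asymptotically parallel to `e` at the ratio `cc` -/
def RZero {N : ℕ} (U : Set (E N)) (u : ℝ → E N → ℝ) (cc : ℝ) : Prop :=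
  AtR U cc fun ε t x e => gr u t x ≤ (1 + ε) * -dx u e t x

/-- `|∂_h u| ≤ (R + ε) p` for all unit `h ⊥ e` at the ratio `cc` -/
def TiltB {N : ℕ} (U : Set (E N)) (u : ℝ → E N → ℝ) (cc R : ℝ) : Prop :=
  AtR U cc fun ε t x e => ∀ h, ‖h‖ = 1 → inner ℝ h e = 0 → dx u h t x ≤ (R + ε) * -dx u e t x

/-- windows of maximal tilt are flat: their limits are constant states `b` with
`f'(b) ≤ κb < c² / 4` -/
def SatW {N : ℕ} (f : ℝ → ℝ) (U : Set (E N)) (u : ℝ → E N → ℝ) (cc : ℝ) : Prop :=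
  ∃ κb, 4 * κb < cc ^ 2 ∧ ∀ R, 0 < R → TiltB U u cc R →
    ∀ (tn : ℕ → ℝ) (xn : ℕ → E N) (e h : E N) (w : ℝ → E N → ℝ),
    AtSeq U cc tn xn e → ‖h‖ = 1 → inner ℝ h e = 0 →
    Tendsto (fun n => dx u h (tn n) (xn n) / -dx u e (tn n) (xn n)) atTop (𝓝 R) →
    Ent f w → LimAt u tn xn w → ∃ b, fp f b ≤ κb ∧ ∀ t ≤ 0, ∀ x, w t x = b

/-- the functional `2 c ∂_a u + c (1 - |a|²) p - u_t`, `a ⊥ e` -/
noncomputable def Fa {N : ℕ} (u : ℝ → E N → ℝ) (cc : ℝ) (e a : E N) (t : ℝ) (x : E N) : ℝ :=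
  2 * cc * dx u a t x + cc * (1 - ‖a‖ ^ 2) * -dx u e t x - dt u t x

/-! ### Expansion -/

/-- expansion property of the level `b` at speeds smaller than `c` -/
def ExpJ (N : ℕ) (f : ℝ → ℝ) (b c : ℝ) : Prop :=
  ∀ ε > 0, ∃ ℓ L R0 : ℝ, b - ε < ℓ ∧ ℓ < b ∧ 0 < L ∧ 0 < R0 ∧
    ∀ v : ℝ → E N → ℝ, Cls f v → (∀ t > 0, ∀ x, 0 ≤ v t x ∧ v t x ≤ 1) → ∀ t0 > 0, ∀ x0, ∀ R ≥ R0,
      (∀ y ∈ closedBall x0 R, ℓ ≤ v t0 y) →
      ∀ s ≥ 0, ∀ y, dist y x0 ≤ R - L + (c - ε) * s → ℓ ≤ v (t0 + s) y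

/-- exponential decay of `u - a` away from the set where `u ≥ ℓ` on balls -/
def TwP {N : ℕ} (u : ℝ → E N → ℝ) (a kk ℓ R1 C T : ℝ) : Prop :=
  ∀ t ≥ T, (ig u ℓ R1 t).Nonempty ∧
    ∀ x, u t x - a ≤ C * Real.exp (-(kk * infDist x (ig u ℓ R1 t)))

/-! ### One-dimensional solution with step datum -/

/-- `Pv(t,z)` is the solution of `P_t = P_zz + f(P)` with datum `1` for `z < 0`, `0` for `z > 0` -/
structure Stp (f : ℝ → ℝ) (Pv : ℝ → ℝ → ℝ) : Prop where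
  c2 : ∀ t > 0, ContDiff ℝ 2 (Pv t)
  eqn : ∀ t > 0, ∀ z, HasDerivAt (fun s => Pv s z) (deriv (deriv (Pv t)) z + f (Pv t z)) t
  cont : ContinuousOn (fun p : ℝ × ℝ => Pv p.1 p.2) (Ioi 0 ×ˢ univ)
  contz : ContinuousOn (fun p : ℝ × ℝ => deriv (Pv p.1) p.2) (Ioi 0 ×ˢ univ)
  contzz : ContinuousOn (fun p : ℝ × ℝ => deriv (deriv (Pv p.1)) p.2) (Ioi 0 ×ˢ univ)
  neg : ∀ t > 0, ∀ z, deriv (Pv t) z < 0
  bot : ∀ t > 0, Tendsto (Pv t) atBot (𝓝 1)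
  top : ∀ t > 0, Tendsto (Pv t) atTop (𝓝 0)
  mild : Mild f 0 (fun t (x : E 1) => if t ≤ 0 then (if x 0 < 0 then 1 else 0) else Pv t (x 0))

/-! ### Pulled component -/

/-- at the ratio `cc`, for small values of `u`, the slope is at most `cc/2` -/
def VSl {N : ℕ} (U : Set (E N)) (u : ℝ → E N → ℝ) (cc : ℝ) : Prop :=
  ∀ ε > 0, ∃ lam > 0, ∃ η > 0, ∃ T > 0, ∀ t ≥ T, ∀ x e, NDir U η x e →
    |infDist x U - cc * t| ≤ η * t → u t x ≤ lam → gr u t x ≤ (cc / 2 + ε) * u t x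

/-- at the ratio `cc`, for small values of `u`, `u_t ≤ (cc + ε) p` and `|∇u| ≤ (1 + ε) p` -/
def VacR {N : ℕ} (U : Set (E N)) (u : ℝ → E N → ℝ) (cc : ℝ) : Prop :=
  ∀ ε > 0, ∃ lam > 0, ∃ η > 0, ∃ T > 0, ∀ t ≥ T, ∀ x e, NDir U η x e →
    |infDist x U - cc * t| ≤ η * t → u t x ≤ lam →
    dt u t x ≤ (cc + ε) * -dx u e t x ∧ gr u t x ≤ (1 + ε) * -dx u e t x

/-- limits at the ratio `cc` with a value in `(a,b)` reach every level below `b` -/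
def ReachP {N : ℕ} (f : ℝ → ℝ) (U : Set (E N)) (u : ℝ → E N → ℝ) (cc a b : ℝ) : Prop :=
  ∀ (tn : ℕ → ℝ) (xn : ℕ → E N) (e : E N) (w : ℝ → E N → ℝ), AtSeq U cc tn xn e → Ent f w →
    LimAt u tn xn w → a < w 0 0 → w 0 0 < b → ∀ ℓ < b, ∃ z, ℓ ≤ w 0 z

end Pool.Agent.H91.RF
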