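import Pool.Agent.H91.RD.Main3
import Pool.Agent.H10.RF.AHDN
import Pool.Agent.H12.RF.CYL
import Pool.Agent.H12.RF.SUPZ
import Pool.Agent.H16.RF.LIBB
import Pool.Agent.H17.RF.BQ
import Pool.Agent.H17.RF.KINV
import Pool.Agent.H17.RF.PWB
import Pool.Agent.H20.RF.TWG
import Pool.Agent.H20.RF.TWL
import Pool.Agent.H21.RF.ENTG
import Pool.Agent.H21.RF.GLIM
import Pool.Agent.H21.RF.KLX
import Pool.Agent.H24.RF.LIA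
import Pool.Agent.H24.RF.P0A
import Pool.Agent.H26.RF.GEOK
import Pool.Agent.H28.RF.ENT
import Pool.Agent.H28.RF.MPV
import Pool.Agent.H28.RF.PWA
import Pool.Agent.H29.RF.LGS
import Pool.Agent.H29.RF.LVL
import Pool.Agent.H29.RF.STEEP
import Pool.Agent.H3.RF.ABD
import Pool.Agent.H3.RF.NSUP
import Pool.Agent.H3.RF.RCR
import Pool.Agent.H30.RF.SOL1
import Pool.Agent.H30.RF.STAT
import Pool.Agent.H30.RF.STL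
import Pool.Agent.H31.RF.HV
import Pool.Agent.H31.RF.LBX
import Pool.Agent.H33.RF.E1
import Pool.Agent.H33.RF.P0B
import Pool.Agent.H33.RF.VLA
import Pool.Agent.H33.RF.VSL
import Pool.Agent.H34.RF.ITER
import Pool.Agent.H34.RF.PW
import Pool.Agent.H34.RF.PWC
import Pool.Agent.H35.RF.FTT
import Pool.Agent.H37.RF.PAST
import Pool.Agent.H4.RF.EXPJ
import Pool.Agent.H4.RF.IEL
import Pool.Agent.H4.RF.KCV
import Pool.Agent.H4.RF.KEX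
import Pool.Agent.H4.RF.WID
import Pool.Agent.H41.RF.KBD
import Pool.Agent.H41.RF.KER
import Pool.Agent.H41.RF.KGR
import Pool.Agent.H41.RF.TER
import Pool.Agent.H42.RF.EXC
import Pool.Agent.H42.RF.FTL
import Pool.Agent.H42.RF.SWN
import Pool.Agent.H47.RF.GEOB
import Pool.Agent.H47.RF.UPB
import Pool.Agent.H48.RF.DBL
import Pool.Agent.H48.RF.KE1
import Pool.Agent.H48.RF.KE2
import Pool.Agent.H54.RF.AHD0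
import Pool.Agent.H54.RF.TE2
import Pool.Agent.H58.RF.AVD
import Pool.Agent.H58.RF.FULL
import Pool.Agent.H58.RF.MA
import Pool.Agent.H58.RF.MB
import Pool.Agent.H58.RF.TE4
import Pool.Agent.H58.RF.WBK
import Pool.Agent.H59.RF.CNM
import Pool.Agent.H59.RF.DEP
import Pool.Agent.H62.RF.MAC
import Pool.Agent.H62.RF.MC
import Pool.Agent.H62.RF.SUPS
import Pool.Agent.H65.RF.TE1
import Pool.Agent.H66.RF.FRMb
import Pool.Agent.H66.RF.LIMF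
import Pool.Agent.H67.RF.NOTI
import Pool.Agent.H67.RF.STP
import Pool.Agent.H69.RF.ALLC
import Pool.Agent.H73.RF.FPC
import Pool.Agent.H73.RF.LIB
import Pool.Agent.H73.RF.TRIV
import Pool.Agent.H76.RF.CONV
import Pool.Agent.H76.RF.LINU
import Pool.Agent.H76.RF.MRG2
import Pool.Agent.H78.RF.KSYM
import Pool.Agent.H78.RF.SUBP
import Pool.Agent.H81.RF.CHN
import Pool.Agent.H81.RF.EXS
import Pool.Agent.H81.RF.KIN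
import Pool.Agent.H81.RF.KREP
import Pool.Agent.H81.RF.KRFL
import Pool.Agent.H81.RF.VLC
import Pool.Agent.H84.RF.VAC
import Pool.Agent.H85.RF.EXPB
import Pool.Agent.H85.RF.LIMR
import Pool.Agent.H85.RF.PLAN
import Pool.Agent.H85.RF.STH
import Pool.Agent.H85.RF.TE3
import Pool.Agent.H87.RF.IEU
import Pool.Agent.H87.RF.KAPL
import Pool.Agent.H89.RF.PT
import Pool.Agent.H90.RF.Liba
import Pool.Agent.H94.RF.PSTG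
import Pool.Agent.H94.RF.WLB
import Pool.Agent.H95.RF.LCPT
import Pool.Agent.H95.RF.LIR

/-!
# MP_609556_an: assembly of the full theorem
-/

open Pool.Agent.H91.RD

namespace Pool.Agent.H91.RF.K

theorem BQ : Pool.Agent.H91.RF.T_BQ :=
  Pool.Agent.H17.RF.BQ.bq Pool.Agent.H91.RD.K.TAIL Pool.Agent.H91.RD.K.E0 Pool.Agent.H91.RD.K.CMP
theorem DBL : Pool.Agent.H91.RF.T_DBL :=
  Pool.Agent.H48.RF.DBL.pf_DBL
theorem DEP : Pool.Agent.H91.RF.T_DEP :=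
  Pool.Agent.H59.RF.pf_DEP
theorem ENTG : Pool.Agent.H91.RF.T_ENTG :=
  Pool.Agent.H21.RF.entg
theorem EXPB : Pool.Agent.H91.RF.T_EXPB :=
  Pool.Agent.H85.RF.EXPB.pf_EXPB Pool.Agent.H91.RD.K.MP0 Pool.Agent.H91.RD.K.RAD
theorem EXS : Pool.Agent.H91.RF.T_EXS :=
  Pool.Agent.H81.RF.EX.EXS Pool.Agent.H91.RD.K.GRAD Pool.Agent.H91.RD.K.GC
theorem FPC : Pool.Agent.H91.RF.T_FPC :=
  Pool.Agent.H73.RF.FPC
theorem GEOB : Pool.Agent.H91.RF.T_GEOB :=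
  Pool.Agent.H47.RF.GEOB
theorem GEOK : Pool.Agent.H91.RF.T_GEOK :=
  Pool.Agent.H26.RF.geok Pool.Agent.H91.RD.K.E0 Pool.Agent.H91.RD.K.E2
theorem ITER : Pool.Agent.H91.RF.T_ITER :=
  Pool.Agent.H34.RF.ITER.pf_ITER
theorem KAPL : Pool.Agent.H91.RF.T_KAPL :=
  Pool.Agent.H87.RF.KAPL.X Pool.Agent.H91.RD.K.YEX Pool.Agent.H91.RD.K.YCMP
theorem KE1 : Pool.Agent.H91.RF.T_KE1 :=
  Pool.Agent.H48.RF.ke1
theorem KE2 : Pool.Agent.H91.RF.T_KE2 :=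
  Pool.Agent.H48.RF.ke2
theorem KGR : Pool.Agent.H91.RF.T_KGR :=
  Pool.Agent.H41.RF.KGR.pf_KGR
theorem KINV : Pool.Agent.H91.RF.T_KINV :=
  Pool.Agent.H17.RF.kinv
theorem KRFL : Pool.Agent.H91.RF.T_KRFL :=
  Pool.Agent.H81.RF.KRFL.krfl
theorem MPV : Pool.Agent.H91.RF.T_MPV :=
  Pool.Agent.H28.RF.MPV.mpv Pool.Agent.H91.RD.K.GRAD
theorem SUBP : Pool.Agent.H91.RF.T_SUBP :=
  Pool.Agent.H78.RF.subp
theorem TE1 : Pool.Agent.H91.RF.T_TE1 :=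
  Pool.Agent.H65.RF.te1 Pool.Agent.H91.RD.K.SOLM Pool.Agent.H91.RD.K.SH Pool.Agent.H91.RD.K.GC
theorem TE3 : Pool.Agent.H91.RF.T_TE3 :=
  Pool.Agent.H85.RF.TE3.pf_TE3 Pool.Agent.H91.RD.K.YEX Pool.Agent.H91.RD.K.YCMP
theorem TE4 : Pool.Agent.H91.RF.T_TE4 :=
  Pool.Agent.H58.RF.TE4 Pool.Agent.H91.RD.K.YEX
theorem TWL : Pool.Agent.H91.RF.T_TWL :=
  Pool.Agent.H20.RF.TWL.twl
theorem VLA : Pool.Agent.H91.RF.T_VLA :=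
  Pool.Agent.H33.RF.VLA.vla
theorem CNM : Pool.Agent.H91.RF.T_CNM :=
  Pool.Agent.H59.RF.pf_CNM K.GEOK
theorem CONV : Pool.Agent.H91.RF.T_CONV :=
  Pool.Agent.H76.RF.conv K.FPC Pool.Agent.H91.RD.K.GRAD
theorem CYL : Pool.Agent.H91.RF.T_CYL :=
  Pool.Agent.H12.RF.CYL K.MPV
theorem EXC : Pool.Agent.H91.RF.T_EXC :=
  Pool.Agent.H42.RF.EXC.pf_EXC Pool.Agent.H91.RD.K.YEX Pool.Agent.H91.RD.K.YCMP K.SUBP K.EXPB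
theorem EXPJ : Pool.Agent.H91.RF.T_EXPJ :=
  Pool.Agent.H4.RF.EXPJ.expj Pool.Agent.H91.RD.K.YEX K.SUBP K.EXPB
theorem GTR : Pool.Agent.H91.RF.T_GTR :=
  Pool.Agent.H21.RF.gtr K.KINV
theorem KBD : Pool.Agent.H91.RF.T_KBD :=
  Pool.Agent.H41.RF.KGR.pf_KBD K.KE1 K.KE2
theorem KCV : Pool.Agent.H91.RF.T_KCV :=
  Pool.Agent.H4.RF.KCV.kcv K.KE1
theorem KER : Pool.Agent.H91.RF.T_KER :=
  Pool.Agent.H41.RF.KGR.pf_KER K.KE1 K.KE2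
theorem KSYM : Pool.Agent.H91.RF.T_KSYM :=
  Pool.Agent.H78.RF.ksym K.KE1
theorem LINU : Pool.Agent.H91.RF.T_LINU :=
  Pool.Agent.H76.RF.linu K.FPC Pool.Agent.H91.RD.K.GRAD
theorem MRG : Pool.Agent.H91.RF.T_MRG :=
  Pool.Agent.H76.RF.mrg K.FPC Pool.Agent.H91.RD.K.GRAD
theorem SEQ : Pool.Agent.H91.RF.T_SEQ :=
  Pool.Agent.H47.RF.SEQ K.GEOK
theorem SUPS : Pool.Agent.H91.RF.T_SUPS :=
  Pool.Agent.H62.RF.SUPS.sups K.KAPL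
theorem SUPZ : Pool.Agent.H91.RF.T_SUPZ :=
  Pool.Agent.H12.RF.SUPZ K.KAPL
theorem TE2 : Pool.Agent.H91.RF.T_TE2 :=
  Pool.Agent.H54.RF.te2 K.TE1 Pool.Agent.H91.RD.K.SOLM Pool.Agent.H91.RD.K.SH
    Pool.Agent.H91.RD.K.CMP Pool.Agent.H91.RD.K.TAIL Pool.Agent.H91.RD.K.MP0
theorem UPB : Pool.Agent.H91.RF.T_UPB :=
  Pool.Agent.H47.RF.UPB K.GEOK
theorem VLC : Pool.Agent.H91.RF.T_VLC :=
  Pool.Agent.H81.RF.VL.VLC Pool.Agent.H91.RD.K.GRAD K.VLA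
theorem WBK : Pool.Agent.H91.RF.T_WBK :=
  Pool.Agent.H58.RF.WBK K.GEOK
theorem CHN : Pool.Agent.H91.RF.T_CHN :=
  Pool.Agent.H81.RF.CHN.chn K.ITER K.KER
theorem E1 : Pool.Agent.H91.RF.T_E1 :=
  Pool.Agent.H33.RF.E1.e1 Pool.Agent.H91.RD.K.ODD Pool.Agent.H91.RD.K.TAIL K.LINU
theorem ENT : Pool.Agent.H91.RF.T_ENT :=
  Pool.Agent.H28.RF.ENT.ent K.KER
theorem GSC : Pool.Agent.H91.RF.T_GSC :=
  Pool.Agent.H21.RF.gsc K.KER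
theorem KEX : Pool.Agent.H91.RF.T_KEX :=
  Pool.Agent.H4.RF.KEX.kex K.KE1 K.KE2 K.KER Pool.Agent.H91.RD.K.GRAD
theorem KLX : Pool.Agent.H91.RF.T_KLX :=
  Pool.Agent.H21.RF.KLX.klx K.KE1 K.KE2 K.KBD
theorem KREP : Pool.Agent.H91.RF.T_KREP :=
  Pool.Agent.H81.RF.KREP.krep K.KE1 K.KE2 K.KGR K.KBD
theorem MA : Pool.Agent.H91.RF.T_MA :=
  Pool.Agent.H58.RF.MA K.EXPJ
theorem MB : Pool.Agent.H91.RF.T_MB :=
  Pool.Agent.H58.RF.MB K.BQ K.SUPS Pool.Agent.H91.RD.K.TAIL Pool.Agent.H91.RD.K.CMP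
theorem NOTI : Pool.Agent.H91.RF.T_NOTI :=
  Pool.Agent.H67.RF.NOTI.noti K.SUPS Pool.Agent.H91.RD.K.MP0 Pool.Agent.H91.RD.K.TR K.MRG
theorem NSUP : Pool.Agent.H91.RF.T_NSUP :=
  Pool.Agent.H3.RF.NSUP K.KER Pool.Agent.H91.RD.K.TAIL
theorem PSTG : Pool.Agent.H91.RF.T_PSTG :=
  Pool.Agent.H94.RF.pstg K.MRG K.EXPJ
theorem PWA : Pool.Agent.H91.RF.T_PWA :=
  Pool.Agent.H28.RF.PWA.pwa K.KER K.KINV K.KSYM
theorem SOL1 : Pool.Agent.H91.RF.T_SOL1 :=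
  Pool.Agent.H30.RF.sol1 K.EXS K.MRG Pool.Agent.H91.RD.K.TR Pool.Agent.H91.RD.K.CMP
    Pool.Agent.H91.RD.K.SH
theorem STL : Pool.Agent.H91.RF.T_STL :=
  Pool.Agent.H30.RF.STL.stl K.DBL K.MRG Pool.Agent.H91.RD.K.SH
theorem STP : Pool.Agent.H91.RF.T_STP :=
  Pool.Agent.H67.RF.STP.stp K.CYL K.GEOK K.LINU K.FPC
theorem TER : Pool.Agent.H91.RF.T_TER :=
  Pool.Agent.H41.RF.TER.pf_TER Pool.Agent.H91.RD.K.LIP K.TE1 K.TE2 K.TE3 K.TE4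
    Pool.Agent.H91.RD.K.EXTR Pool.Agent.H91.RD.K.FZ Pool.Agent.H91.RD.K.SPD
    Pool.Agent.H91.RD.K.WAV Pool.Agent.H91.RD.K.F0P
theorem TWG : Pool.Agent.H91.RF.T_TWG :=
  Pool.Agent.H20.RF.TWG.twg K.SUPZ K.EXPJ Pool.Agent.H91.RD.K.NPG Pool.Agent.H91.RD.K.GT
    Pool.Agent.H91.RD.K.MP0 Pool.Agent.H91.RD.K.RAD
theorem WLB : Pool.Agent.H91.RF.T_WLB :=
  Pool.Agent.H94.RF.wlb K.WBK Pool.Agent.H91.RD.K.ODEG K.GEOK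
theorem AVD : Pool.Agent.H91.RF.T_AVD :=
  Pool.Agent.H58.RF.AVD Pool.Agent.H91.RD.K.TR K.TWG K.TWL K.NOTI K.CONV
theorem FRM : Pool.Agent.H91.RF.T_FRM :=
  Pool.Agent.H66.RF.FRM.FRM K.E1 K.GEOB K.LINU K.KER K.KREP Pool.Agent.H91.RD.K.TAIL
theorem GLIM : Pool.Agent.H91.RF.T_GLIM :=
  Pool.Agent.H21.RF.glim K.KER K.KCV K.ENT
theorem HV : Pool.Agent.H91.RF.T_HV :=
  Pool.Agent.H31.RF.HV K.SOL1
theorem IEL : Pool.Agent.H91.RF.T_IEL :=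
  Pool.Agent.H4.RF.IEL.iel Pool.Agent.H91.RD.K.GRAD K.KREP K.KER
theorem LBX : Pool.Agent.H91.RF.T_LBX :=
  Pool.Agent.H31.RF.LBX Pool.Agent.H91.RD.K.MP0 K.PSTG K.MA
theorem LGS : Pool.Agent.H91.RF.T_LGS :=
  Pool.Agent.H29.RF.LGS.pf_LGS K.SOL1 K.MRG Pool.Agent.H91.RD.K.GRAD Pool.Agent.H91.RD.K.CMP
    Pool.Agent.H91.RD.K.SH Pool.Agent.H91.RD.K.TR
theorem LIMF : Pool.Agent.H91.RF.T_LIMF :=
  Pool.Agent.H66.RF.LIMF.LIMF Pool.Agent.H91.RD.K.EXT K.MA K.MB K.CONV K.SEQ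
    Pool.Agent.H91.RD.K.E0
theorem LIMR : Pool.Agent.H91.RF.T_LIMR :=
  Pool.Agent.H85.RF.LIMR.X K.SEQ K.CONV K.KREP K.KER
theorem MAC : Pool.Agent.H91.RF.T_MAC :=
  Pool.Agent.H62.RF.MAC.mac K.MA K.MB
theorem MC : Pool.Agent.H91.RF.T_MC :=
  Pool.Agent.H62.RF.MC.mc K.BQ K.MB K.SUPS
theorem P0B : Pool.Agent.H91.RF.T_P0B :=
  Pool.Agent.H33.RF.P0B.p0b K.MPV K.KEX K.KER
theorem PWB : Pool.Agent.H91.RF.T_PWB :=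
  Pool.Agent.H17.RF.PWB.pwb K.KBD K.PWA
theorem PWC : Pool.Agent.H91.RF.T_PWC :=
  Pool.Agent.H34.RF.PWC.pf_PWC K.KBD K.PWA
theorem STAT : Pool.Agent.H91.RF.T_STAT :=
  Pool.Agent.H30.RF.stat K.FPC K.LINU K.GEOK K.CYL K.STP
theorem STH : Pool.Agent.H91.RF.T_STH :=
  Pool.Agent.H85.RF.STH.pf_STH K.KLX K.KER
theorem TRIV : Pool.Agent.H91.RF.T_TRIV :=
  Pool.Agent.H73.RF.TRIV K.ENT
theorem WID : Pool.Agent.H91.RF.T_WID :=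
  Pool.Agent.H4.RF.WID.wid K.CNM K.WBK K.WLB K.EXC K.EXPJ Pool.Agent.H91.RD.K.ODEG K.MA K.GEOB
    K.GEOK
theorem IEU : Pool.Agent.H91.RF.T_IEU :=
  Pool.Agent.H87.RF.IEU.X K.IEL K.KREP K.KBD K.LINU
theorem LCPT : Pool.Agent.H91.RF.T_LCPT :=
  Pool.Agent.H95.RF.LCPT.lcpt K.IEL K.KCV K.KREP K.KER
theorem P0A : Pool.Agent.H91.RF.T_P0A :=
  Pool.Agent.H24.RF.P0A K.P0B K.GEOB K.UPB K.LINU K.FPC
theorem PAST : Pool.Agent.H91.RF.T_PAST :=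
  Pool.Agent.H37.RF.PAST K.KER K.KREP K.IEL K.GEOK K.LINU K.NSUP
theorem PLAN : Pool.Agent.H91.RF.T_PLAN :=
  Pool.Agent.H85.RF.PLAN.X K.LIMR K.CONV K.KREP K.KER
theorem PW : Pool.Agent.H91.RF.T_PW :=
  Pool.Agent.H34.RF.PW.pf_PW K.KBD K.PWA K.PWB K.PWC
theorem STEEP : Pool.Agent.H91.RF.T_STEEP :=
  Pool.Agent.H29.RF.pf_STEEP K.STL K.LGS K.EXS K.DEP Pool.Agent.H91.RD.K.GRAD
    Pool.Agent.H91.RD.K.SH
theorem AHD0 : Pool.Agent.H91.RF.T_AHD0 :=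
  Pool.Agent.H54.RF.ahd0 K.MC K.IEU
theorem AHDN : Pool.Agent.H91.RF.T_AHDN :=
  Pool.Agent.H10.RF.ahdn K.GEOB K.IEU Pool.Agent.H91.RD.K.E0
theorem LIA : Pool.Agent.H91.RF.T_LIA :=
  Pool.Agent.H24.RF.LIA.LIA K.PAST Pool.Agent.H91.RD.K.EXT K.KCV K.KRFL K.KINV K.LINU K.FPC K.KER
    K.KREP K.ENT
theorem LIBA : Pool.Agent.H91.RF.T_LIBA :=
  Pool.Agent.H90.RF.LIBA.liba K.LCPT Pool.Agent.H91.RD.K.EXT K.UPB K.KREP K.KER K.NSUP K.LINU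
    K.KINV K.FPC K.CONV
theorem LIBB : Pool.Agent.H91.RF.T_LIBB :=
  Pool.Agent.H16.RF.LIBB.main K.PW K.KER
theorem LIR : Pool.Agent.H91.RF.T_LIR :=
  Pool.Agent.H95.RF.LIR.lir K.LCPT K.GLIM K.ENTG K.GTR K.GSC K.SEQ K.UPB Pool.Agent.H91.RD.K.EXT
    K.PAST K.KREP K.NSUP K.LINU K.FPC K.KER
theorem LVL : Pool.Agent.H91.RF.T_LVL :=
  Pool.Agent.H29.RF.pf_LVL Pool.Agent.H91.RD.K.TR K.STEEP
theorem SWN : Pool.Agent.H91.RF.T_SWN :=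
  Pool.Agent.H42.RF.SWN.swn K.PLAN K.AVD K.LIMR K.SEQ Pool.Agent.H91.RD.K.EXT K.CONV
    Pool.Agent.H91.RD.K.TR
theorem VAC : Pool.Agent.H91.RF.T_VAC :=
  Pool.Agent.H84.RF.VAC.vac K.UPB K.SEQ K.IEU K.FPC K.KREP K.KER K.LCPT K.IEL K.LINU
theorem ABD : Pool.Agent.H91.RF.T_ABD :=
  Pool.Agent.H3.RF.ABD K.KER K.NSUP K.GEOB K.UPB K.KREP K.LINU K.TRIV K.CHN K.P0A K.LIA
theorem FTL : Pool.Agent.H91.RF.T_FTL :=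
  Pool.Agent.H42.RF.FTL.ftl K.VAC K.VLC K.UPB K.SEQ K.IEU K.FPC K.KREP K.KER K.KCV K.LINU K.GTR
    K.GSC K.GLIM K.ENTG
theorem LIB : Pool.Agent.H91.RF.T_LIB :=
  Pool.Agent.H73.RF.LIB K.LIBA K.LIBB K.GLIM K.STH K.GTR K.GSC K.SEQ K.KREP K.NSUP K.UPB K.LINU
    K.KER
theorem PT : Pool.Agent.H91.RF.T_PT :=
  Pool.Agent.H89.RF.pf_PT K.LVL K.LBX K.MC K.MA K.PSTG
theorem RCR : Pool.Agent.H91.RF.T_RCR :=
  Pool.Agent.H3.RF.RCR K.KER K.NSUP K.GEOB K.UPB K.KREP K.LINU K.TRIV K.CHN K.LIR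
theorem FT : Pool.Agent.H91.RF.T_FT :=
  Pool.Agent.H35.RF.FT K.KER K.NSUP K.GEOB K.UPB K.KREP K.LINU K.TRIV K.CHN K.FTL
theorem KIN : Pool.Agent.H91.RF.T_KIN :=
  Pool.Agent.H81.RF.KIN K.LIB K.CHN K.P0A K.TRIV K.NSUP K.UPB K.KREP K.GEOB K.LINU K.KER
theorem VSL : Pool.Agent.H91.RF.T_VSL :=
  Pool.Agent.H33.RF.VSL.vsl K.STEEP K.PT K.HV K.GEOK
theorem ALLC : Pool.Agent.H91.RF.T_ALLC :=
  Pool.Agent.H69.RF.pf_ALLC K.MAC K.FRM K.AHD0 K.AHDN K.ABD K.KIN K.RCR K.STAT K.SWN K.VSL K.FT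
    K.WID
theorem FULL : Pool.Agent.H91.RF.T_FULL :=
  Pool.Agent.H58.RF.FULL Pool.Agent.H91.RD.K.LIP K.TER Pool.Agent.H91.RD.K.IGN
    Pool.Agent.H91.RD.K.FIN K.ALLC K.LIMF

end Pool.Agent.H91.RF.K

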